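import Pool.Agent.Helper50_ABB.Touch

/-!
# Case V, subcase C: both lobes have no slit (MP_d857f1_al, part B)
-/

set_option autoImplicit false

namespace Pool.Agent.ABA.B.H50

open Knd Pool.Agent.ABA Pool.Agent.ABA.B Pool.Agent.ABA.B.TG Pool.Agent.ABA.B.H17
  Pool.Agent.ABA.B.H89 Pool.Agent.ABA.B.H49 Pool.Agent.ABA.B.H94

variable {G : Type} [Group G] {A B : Subgroup G} {g : G}
variable {hg : ¬ IsABA A B g} {hgeo : Geo A B} {hι : Function.Injective (Pι A B g)}

/-- the letters before and after a position between two flat sides -/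
theorem at_corner {w : List (XE A B g)} {a : ℕ → XE A B g} {W : ℕ → List (XE A B g)}
    {I : List (List (XE A B g))} (hD : DW (XX hg hgeo hι) w a W I) {c : Car A B g}
    {x y : XV A B g} {l s r : List (XE A B g)} (hw : w = l ++ s ++ r)
    (hF : SideP hg hgeo hι c x y s) (i : ℕ) (h1 : l.length ≤ i) (h2 : i < l.length + s.length) :
    car (a i) = c := by
  obtain ⟨j, rfl⟩ : ∃ j, i = l.length + j := ⟨i - l.length, by omega⟩
  have hj : j < s.length := by omega
  have h3 : a (l.length + j) = s[j] := by
    have h4 : l.length + j < w.length := by rw [hw]; simp; omega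
    rw [hD.get _ h4]
    simp only [hw, List.append_assoc]
    rw [List.getElem_append_right (by omega), List.getElem_append_left (by omega)]
    simp
  rw [h3]
  exact hF.2 _ (List.getElem_mem _)

/-- **case C**: no minimal polygon without slits -/
theorem caseC (hA : ∀ x ∈ A, ∀ y ∈ A, x * y = y * x) (M : Mods)
    (hSC : (XX hg hgeo hι).SC) (hQ : Q1Stmt hg hgeo hι) (hS : StabStmt A B g)
    (hfix : FixStmt A B g) {F : Fr A B g} (hF : F.Ok hg hgeo hι)
    {p q : XV A B g} {γ s b γ' s' a : List (XE A B g)}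
    (hP : F.Poly hg hgeo hι p q γ s b γ' s' a) (hM : F.Mini hg hgeo hι γ s b γ' s' a)
    (k0 : F.k hg hgeo hι = 0) (k0' : F.k' hg hgeo hι = 0) : False := by
  have hPF := cv_pf hA M hSC hQ hS hfix hF hP hM
  obtain ⟨hp, hq, ⟨l1, ⟨y, oy, hγ, hs⟩, hr⟩, ⟨l2, ⟨y', oy', hγ', hs'⟩, hr'⟩, hb, ha⟩ := hP
  have e1 : γ = [] := List.eq_nil_of_length_eq_zero (by rw [l1, k0])
  have e2 : γ' = [] := List.eq_nil_of_length_eq_zero (by rw [l2, k0'])
  subst e1 e2
  have e3 : p = y := hγ
  have e4 : q = y' := hγ'
  subst e3 e4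
  have dH := hF.disjH hA M hSC hQ hS
  have dC := hF.disjC hA M hSC hS
  have op2 : On F.H' (F.x • p) := by
    have := hp.smul F.x
    rwa [hF.xH] at this
  have oy2 : On F.C (F.x • p) := by
    have := oy.smul F.x
    rwa [hF.xC] at this
  have oq2 : On F.H (F.x' • q) := by
    have := hq.smul F.x'
    rwa [hF.xH'] at this
  have oy2' : On F.C' (F.x' • q) := by
    have := oy'.smul F.x'
    rwa [hF.xC'] at this
  have ns : s ≠ [] := by
    rintro rfl
    have h1 : p = F.x • p := hs.nil_eq
    exact dH p hp (by rw [h1]; exact op2)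
  have ns' : s' ≠ [] := by
    rintro rfl
    have h1 : q = F.x' • q := hs'.nil_eq
    exact dH q (by rw [h1]; exact oq2) hq
  have nb : b ≠ [] := by
    rintro rfl
    have h1 : F.x • p = q := hb.nil_eq
    exact dC q (by rw [← h1]; exact oy2) oy'
  have na : a ≠ [] := by
    rintro rfl
    have h1 : F.x' • q = p := ha.nil_eq
    exact dC p oy (by rw [← h1]; exact oy2')
  have rx : ¬ Rot F.x := fun h => ns (hr h)
  have rx' : ¬ Rot F.x' := fun h => ns' (hr' h)
  -- the word
  have hword : ∀ s1 b1 s2 a1 : List (XE A B g), F.word hg hgeo hι [] s1 b1 [] s2 a1 =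
      s1 ++ b1 ++ s2 ++ a1 := by
    intro s1 b1 s2 a1
    simp [Fr.word, lobe]
  have hmin : ∀ s1 b1 s2 a1 : List (XE A B g), SideP hg hgeo hι F.C p (F.x • p) s1 →
      SideP hg hgeo hι F.H' (F.x • p) q b1 → SideP hg hgeo hι F.C' q (F.x' • q) s2 →
      SideP hg hgeo hι F.H (F.x' • q) p a1 →
      (XX hg hgeo hι).ar (s ++ b ++ s' ++ a) ≤ (XX hg hgeo hι).ar (s1 ++ b1 ++ s2 ++ a1) ∧
      ((XX hg hgeo hι).ar (s1 ++ b1 ++ s2 ++ a1) ≤ (XX hg hgeo hι).ar (s ++ b ++ s' ++ a) →
        s.length + b.length + s'.length + a.length ≤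
          s1.length + b1.length + s2.length + a1.length) := by
    intro s1 b1 s2 a1 h1 h2 h3 h4
    have := hM p q [] s1 b1 [] s2 a1 ⟨hp, hq, ⟨l1, ⟨p, oy, hγ, h1⟩, fun h => absurd h rx⟩,
      ⟨l2, ⟨q, oy', hγ', h3⟩, fun h => absurd h rx'⟩, h2, h4⟩
    unfold Fr.area at this
    rw [hword, hword] at this
    exact this
  rw [hword] at hPF
  obtain ⟨w, hw⟩ : ∃ w, w = s ++ b ++ s' ++ a := ⟨_, rfl⟩
  have Ls := List.length_pos_iff.2 ns
  have Lb := List.length_pos_iff.2 nb
  have Ls' := List.length_pos_iff.2 ns'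
  have La := List.length_pos_iff.2 na
  have hcl : (XX hg hgeo hι).Cl w := by
    refine ⟨p, ?_⟩
    rw [hw]
    exact isP_append.2 ⟨_, isP_append.2 ⟨_, isP_append.2 ⟨_, hs.1, hb.1⟩, hs'.1⟩, ha.1⟩
  have hlen : w.length = s.length + b.length + s'.length + a.length := by rw [hw]; simp; omega
  obtain ⟨av, W, I, D⟩ := exists_DW _ _ (XX hg hgeo hι) M hSC w hcl (by rw [hw]; exact hPF)
    (by intro e; rw [e] at hlen; simp at hlen; omega)
    (by intro e he; rw [he] at hlen; simp at hlen; omega)
  have w1 : w = [] ++ s ++ (b ++ s' ++ a) := by rw [hw]; simp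
  have w2 : w = s ++ b ++ (s' ++ a) := by rw [hw]; simp
  have w3 : w = (s ++ b) ++ s' ++ a := by rw [hw]
  have w4 : w = (s ++ b ++ s') ++ a ++ [] := by rw [hw]; simp
  have F1 : FlatMin hg hgeo hι F.C p (F.x • p) [] s (b ++ s' ++ a) := by
    refine ⟨hs, fun t ht => ?_⟩
    have := hmin t b s' a ht hb hs' ha
    simp only [List.nil_append, ← List.append_assoc]
    exact ⟨this.1, fun h => by have := this.2 h; omega⟩
  have F2 : FlatMin hg hgeo hι F.H' (F.x • p) q s b (s' ++ a) := by
    refine ⟨hb, fun t ht => ?_⟩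
    have := hmin s t s' a hs ht hs' ha
    simp only [← List.append_assoc]
    exact ⟨this.1, fun h => by have := this.2 h; omega⟩
  have F3 : FlatMin hg hgeo hι F.C' q (F.x' • q) (s ++ b) s' a := by
    refine ⟨hs', fun t ht => ?_⟩
    have := hmin s b t a hs hb ht ha
    exact ⟨this.1, fun h => by have := this.2 h; omega⟩
  have F4 : FlatMin hg hgeo hι F.H (F.x' • q) p (s ++ b ++ s') a [] := by
    refine ⟨ha, fun t ht => ?_⟩
    have := hmin s b s' t hs hb hs' ht
    simp only [List.append_nil]
    exact ⟨this.1, fun h => by have := this.2 h; omega⟩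
  have T1 := (flat_ hA M hSC _ _ _ _ _ _ w av W I w1 hcl D F1).1
  have T2 := (flat_ hA M hSC _ _ _ _ _ _ w av W I w2 hcl D F2).1
  have T3 := (flat_ hA M hSC _ _ _ _ _ _ w av W I w3 hcl D F3).1
  have T4 := (flat_ hA M hSC _ _ _ _ _ _ w av W I w4 hcl D F4).1
  have i2 := (intF_ hA M hSC _ _ _ _ _ _ w av W I w2 hcl D F2 nb).2
  have i4 := (intF_ hA M hSC _ _ _ _ _ _ w av W I w4 hcl D F4 na).2
  -- letters
  have c2 := at_corner D w2 hb
  have c3 := at_corner D w3 hs'
  have c4 := at_corner D w4 ha
  simp only [List.length_append, List.length_nil, Nat.zero_add] at T1 T2 T3 T4 i2 i4 c2 c3 c4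
  have hN : w.length = s.length + b.length + s'.length + a.length := hlen
  have dwk : ∀ i, 1 ≤ i → Wk (XX hg hgeo hι) (W i) (xinv (av (i - 1))) (av i) := by
    intro i hi
    obtain ⟨j, rfl⟩ : ∃ j, i = j + 1 := ⟨i - 1, by omega⟩
    rw [Nat.add_sub_cancel]
    exact D.wk j
  -- position 0
  have p0 : W w.length = W 0 := by
    have := D.bd.perW 0
    rwa [Nat.zero_add] at this
  have a0 : av w.length = av 0 := by
    have := D.bd.per 0
    rwa [Nat.zero_add] at this
  have wk0 : Wk (XX hg hgeo hι) (W 0) (xinv (av (w.length - 1))) (av 0) := by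
    have := D.wk (w.length - 1)
    rw [show w.length - 1 + 1 = w.length by omega, p0, a0] at this
    exact this
  have tf0 : TFst (W 0) := by
    have := (T4 (w.length - 1) (by omega) (by omega)).2
    rwa [show w.length - 1 + 1 = w.length by omega, p0] at this
  have hcls : (IsPl F.C ∧ IsPl F.H) ∨ NTwo hg hgeo hι F.C F.x := by
    rcases hF.kls with h | h
    · exact Or.inl ⟨h.1, h.2.2.1⟩
    · exact Or.inr h.2.2.2.2.1
  have hcls' : (IsPl F.C' ∧ IsPl F.H') ∨ NTwo hg hgeo hι F.C' F.x' := by
    rcases hF.ex.kls with h | h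
    · exact Or.inl ⟨h.1, h.2.2.1⟩
    · exact Or.inr h.2.2.2.2.1
  have U1 := touch (H := F.H) hA M hSC hF.xC hF.dCH (α := av (w.length - 1)) (β := av s.length)
    w1 hcl D F1 ns (by simpa using wk0) (by simpa using dwk s.length (by omega))
    (by simpa using tf0)
    (by simpa using (T2 s.length le_rfl (by omega)).1) (c4 _ (by omega) (by omega))
    (by rw [hF.xH]; exact c2 _ le_rfl (by omega)) hcls
  have U2 := touch (H := F.H') hA M hSC hF.xC' hF.dCH' (α := av (s.length + b.length - 1))
    (β := av (s.length + b.length + s'.length)) w3 hcl D F3 ns'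
    (by simpa using dwk (s.length + b.length) (by omega))
    (by simpa using dwk (s.length + b.length + s'.length) (by omega)) (by
      have := (T2 (s.length + b.length - 1) (by omega) (by omega)).2
      rw [show s.length + b.length - 1 + 1 = s.length + b.length by omega] at this
      simpa using this)
    (by simpa using (T4 (s.length + b.length + s'.length) le_rfl (by omega)).1)
    (c2 _ (by omega) (by omega)) (by rw [hF.xH']; exact c4 _ le_rfl (by omega)) hcls'
  simp only [List.length_append, List.length_nil, Nat.zero_add] at U1 U2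
  -- the total
  have hsix := six_le D.bd (hsysX (hg := hg) (hgeo := hgeo) (hι := hι) hA)
  rw [tv_total, hN, tv_add W (a := 0) (b := s.length) (by omega) (by omega),
    tv_add W (a := s.length) (b := s.length + b.length) (by omega) (by omega),
    tv_add W (a := s.length + b.length) (b := s.length + b.length + s'.length) (by omega)
      (by omega), tv_split W Ls, tv_split W (show s.length < s.length + b.length by omega),
    tv_split W (show s.length + b.length < s.length + b.length + s'.length by omega),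
    tv_split W (show s.length + b.length + s'.length <
      s.length + b.length + s'.length + a.length by omega)] at hsix
  have hv0 : vl W (s.length + b.length + s'.length + a.length) = vl W 0 := by
    unfold vl
    rw [← hN, p0]
  rw [hv0] at hsix
  have hcl2 : IsPl F.C ∨ IsPl F.C' := by
    rcases hF.kls with h | h
    · exact Or.inl h.1
    · rcases h.1 with h | h | h
      · exact Or.inr h.2.1
      · exact Or.inl h.1
      · exact Or.inl h.1
  rcases hcl2 with h | h
  · have := U1.2 h
    have := U2.1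
    omega
  · have := U2.2 h
    have := U1.1
    omega

end Pool.Agent.ABA.B.H50
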