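import Pool.Agent.Helper70_ABA.Trip

/-!
# Lobes and two-lobe polygons (MP_d857f1_al, part B, case V): definitions

Frame: carriers `H, H', C, C'` and `x, x'` with `x C = C`, `x H = H'`, `x' C' = C'`, `x' H' = H`.
Polygon: `w = lobe x γ s ++ b ++ lobe x' γ' s' ++ a` with a lobe at `p` in `H`, the side `b` from
`x p` to `q` in `H'`, a lobe at `q`, and the side `a` from `x' q` to `p` in `H`.
-/

set_option autoImplicit false

namespace Pool.Agent.ABA.B.H50

open Pool.Agent.ABA Pool.Agent.ABA.B Pool.Agent.ABA.B.TG Pool.Agent.ABA.B.H17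

variable {G : Type} [Group G] {A B : Subgroup G} {g : G}

section

variable (hg : ¬ IsABA A B g) (hgeo : Geo A B) (hι : Function.Injective (Pι A B g))

/-! ## lobes -/

/-- the word of a lobe: slit, side, the image of the slit backwards -/
def lobe (z : PP A B g) (γ s : List (XE A B g)) : List (XE A B g) :=
  γ ++ s ++ ((XX hg hgeo hι).rv γ).map (actE z)

/-- `lobe z γ s` is a lobe from `p` to `z p` at the carrier `c`, with slit length `k` -/
structure IsLobe (c : Car A B g) (z : PP A B g) (p : XV A B g) (k : ℕ) (γ s : List (XE A B g)) :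
    Prop where
  len : γ.length = k
  mid : ∃ y, On c y ∧ (XX hg hgeo hι).IsP p γ y ∧ SideP hg hgeo hι c y (z • y) s
  rot : Rot z → s = []

/-- Q1 -/
def Q1Stmt : Prop := ∀ (c H : Car A B g) (z : PP A B g), z • c = c → z ≠ 1 → c ≠ H →
  1 ≤ dCC hg hgeo hι c H → (IsLn c → Rot z ∨ NTwo hg hgeo hι c z) →
  ∀ n, On H n → ¬ On (z • H) n

end

/-! ## frames -/

/-- frame of a two-lobe polygon -/
structure Fr {G : Type} [Group G] (A B : Subgroup G) (g : G) where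
  H : Car A B g
  H' : Car A B g
  C : Car A B g
  C' : Car A B g
  x : PP A B g
  x' : PP A B g

namespace Fr

/-- exchange of the two lobes -/
def ex (F : Fr A B g) : Fr A B g := ⟨F.H', F.H, F.C', F.C, F.x', F.x⟩

/-- mirror image -/
def mi (F : Fr A B g) : Fr A B g := ⟨F.H', F.H, F.C, F.C', F.x⁻¹, F.x'⁻¹⟩

/-- the frame of a triple, with hub `c3` -/
def ofT (T : Trp A B g) : Fr A B g :=
  ⟨T.c3, T.z1 • T.c3, T.c1, T.z1 • T.c2, T.z1, T.z1 * T.z2 * T.z1⁻¹⟩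

section

variable (hg : ¬ IsABA A B g) (hgeo : Geo A B) (hι : Function.Injective (Pι A B g))

/-- length of the slit of the first lobe -/
noncomputable def k (F : Fr A B g) : ℕ := dCC hg hgeo hι F.C F.H

/-- length of the slit of the second lobe -/
noncomputable def k' (F : Fr A B g) : ℕ := dCC hg hgeo hι F.C' F.H'

/-- the class: three planes and not all are rotations, or exactly one line, no rotations and no
translation of length one -/
def Kls (F : Fr A B g) : Prop :=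
  (IsPl F.C ∧ IsPl F.C' ∧ IsPl F.H ∧ ¬ (Rot F.x ∧ Rot F.x')) ∨
  (((IsLn F.C ∧ IsPl F.C' ∧ IsPl F.H) ∨ (IsPl F.C ∧ IsLn F.C' ∧ IsPl F.H) ∨
    (IsPl F.C ∧ IsPl F.C' ∧ IsLn F.H)) ∧ ¬ Rot F.x ∧ ¬ Rot F.x' ∧ ¬ Rot (F.x' * F.x) ∧
    NTwo hg hgeo hι F.C F.x ∧ NTwo hg hgeo hι F.C' F.x' ∧ NTwo hg hgeo hι F.H (F.x' * F.x))

/-- The frame of a minimal triple in case V. -/
structure Ok (F : Fr A B g) : Prop where
  xC : F.x • F.C = F.C
  xH : F.x • F.H = F.H'
  xC' : F.x' • F.C' = F.C'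
  xH' : F.x' • F.H' = F.H
  x1 : F.x ≠ 1
  x1' : F.x' ≠ 1
  dCH : F.C ≠ F.H
  dCH' : F.C' ≠ F.H'
  dCC' : F.C ≠ F.C'
  y1 : ∀ n, F.k hg hgeo hι + F.k' hg hgeo hι ≤
    dVC hg hgeo hι n F.C + dVC hg hgeo hι n F.C' + dVC hg hgeo hι n F.H
  y2 : ∀ n, F.k hg hgeo hι + F.k' hg hgeo hι ≤
    dVC hg hgeo hι n F.C + dVC hg hgeo hι n F.C' + dVC hg hgeo hι n F.H'
  v1 : F.k hg hgeo hι + F.k' hg hgeo hι ≤ dCC hg hgeo hι F.C F.C' + F.k hg hgeo hι
  v2 : F.k hg hgeo hι + F.k' hg hgeo hι ≤ dCC hg hgeo hι F.C F.C' + F.k' hg hgeo hι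
  kls : F.Kls hg hgeo hι

/-! ## polygons -/

/-- the word of the polygon -/
def word (F : Fr A B g) (γ s b γ' s' a : List (XE A B g)) : List (XE A B g) :=
  lobe hg hgeo hι F.x γ s ++ b ++ lobe hg hgeo hι F.x' γ' s' ++ a

/-- the two-lobe polygons of the frame -/
structure Poly (F : Fr A B g) (p q : XV A B g) (γ s b γ' s' a : List (XE A B g)) : Prop where
  hp : On F.H p
  hq : On F.H' q
  l1 : IsLobe hg hgeo hι F.C F.x p (F.k hg hgeo hι) γ s
  l2 : IsLobe hg hgeo hι F.C' F.x' q (F.k' hg hgeo hι) γ' s'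
  hb : SideP hg hgeo hι F.H' (F.x • p) q b
  ha : SideP hg hgeo hι F.H (F.x' • q) p a

/-- area of the polygon -/
noncomputable def area (F : Fr A B g) (γ s b γ' s' a : List (XE A B g)) : ℕ :=
  (XX hg hgeo hι).ar (F.word hg hgeo hι γ s b γ' s' a)

/-- minimal: first the area, then the total length of the flat sides -/
def Mini (F : Fr A B g) (γ s b γ' s' a : List (XE A B g)) : Prop :=
  ∀ p₁ q₁ γ₁ s₁ b₁ γ₂ s₂ a₁, F.Poly hg hgeo hι p₁ q₁ γ₁ s₁ b₁ γ₂ s₂ a₁ →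
    F.area hg hgeo hι γ s b γ' s' a ≤ F.area hg hgeo hι γ₁ s₁ b₁ γ₂ s₂ a₁ ∧
    (F.area hg hgeo hι γ₁ s₁ b₁ γ₂ s₂ a₁ ≤ F.area hg hgeo hι γ s b γ' s' a →
      s.length + b.length + s'.length + a.length ≤ s₁.length + b₁.length + s₂.length + a₁.length)

end

end Fr

end Pool.Agent.ABA.B.H50
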