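import Pool.Agent.Helper50_ABB.CvFr

/-!
# Case V: `H` and `H'` are disjoint, `C` and `C'` are disjoint (MP_d857f1_al, part B)
-/

set_option autoImplicit false

namespace Pool.Agent.ABA.B.H50

open Knd Pool.Agent.ABA Pool.Agent.ABA.B Pool.Agent.ABA.B.TG Pool.Agent.ABA.B.H17
  Pool.Agent.ABA.B.H89

variable {G : Type} [Group G] {A B : Subgroup G} {g : G}
variable {hg : ¬ IsABA A B g} {hgeo : Geo A B} {hι : Function.Injective (Pι A B g)}

theorem kndE_actE (z : PP A B g) (e : XE A B g) : kndE (actE z e) = kndE e := by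
  refine XE.ind (P := fun e => kndE (actE z e) = kndE e) ?_ ?_ e
  · intro m q; simp
  · intro m q; simp

theorem TTri_act (z : PP A B g) {c0 c1 c2 : Car A B g} {v0 v1 v2 : XV A B g}
    {e0 e1 e2 : XE A B g} (h : TTri hg hgeo hι c0 c1 c2 v0 v1 v2 e0 e1 e2) :
    TTri hg hgeo hι (z • c0) (z • c1) (z • c2) (z • v0) (z • v1) (z • v2)
      (actE z e0) (actE z e1) (actE z e2) where
  h0 := h.h0.act z
  h1 := h.h1.act z
  h2 := h.h2.act z
  tri := by
    rw [xinv_act, xinv_act]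
    exact XT_act z h.tri
  knd := by
    rw [kndE_actE, kndE_actE]
    exact h.knd

theorem three_PPP (hA : ∀ x ∈ A, ∀ y ∈ A, x * y = y * x) (M : Mods) (hSC : (XX hg hgeo hι).SC)
    {c0 c1 c2 : Car A B g} (p0 : IsPl c0) (p1 : IsPl c1) (p2 : IsPl c2) (k01 : c0 ≠ c1)
    (k12 : c1 ≠ c2) (k20 : c2 ≠ c0)
    {v0 v1 v2 : XV A B g} (o00 : On c0 v0) (o10 : On c1 v0)
    (o11 : On c1 v1) (o21 : On c2 v1)
    (o22 : On c2 v2) (o02 : On c0 v2) : v0 = v1 ∧ v0 = v2 := by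
  obtain ⟨q0, rfl⟩ := p0
  obtain ⟨q1, rfl⟩ := p1
  obtain ⟨q2, rfl⟩ := p2
  by_cases d01 : v0 = v1
  · subst d01
    exact ⟨rfl, two_gon hA M hSC k20 o21 o22 o00 o02⟩
  · by_cases d12 : v1 = v2
    · exfalso
      subst d12
      exact d01 (two_gon hA M hSC k01 o00 o02 o10 o11)
    · by_cases d20 : v2 = v0
      · exfalso
        subst d20
        exact d12 (two_gon hA M hSC k12 o11 o10 o21 o22)
      · exfalso
        obtain ⟨s0, s1, s2, n0, n1, n2, a, W, I, h⟩ := gon3 hA M hSC k01 k12 k20 o00 o10 o11 o21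
          o22 o02 d01 d12 d20
        exact no_PPP hA h

theorem three_LL (hA : ∀ x ∈ A, ∀ y ∈ A, x * y = y * x) (M : Mods) (hSC : (XX hg hgeo hι).SC)
    {c0 c1 c2 : Car A B g} (p0 : IsLn c0) (p1 : IsLn c1) (k01 : c0 ≠ c1)
    (k12 : c1 ≠ c2) (k20 : c2 ≠ c0)
    {v0 v1 v2 : XV A B g} (o00 : On c0 v0) (o10 : On c1 v0)
    (o11 : On c1 v1) (o21 : On c2 v1)
    (o22 : On c2 v2) (o02 : On c0 v2) : v0 = v1 ∧ v0 = v2 := by
  obtain ⟨q0, rfl⟩ := p0
  obtain ⟨q1, rfl⟩ := p1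
  exact three_LLX hA M hSC k01 k12 k20 o00 o10 o11 o21 o22 o02

theorem three_PL (hA : ∀ x ∈ A, ∀ y ∈ A, x * y = y * x) (M : Mods) (hSC : (XX hg hgeo hι).SC)
    {c0 c1 c2 : Car A B g} (p0 : IsPl c0) (p1 : IsPl c1) (p2 : IsLn c2) (k01 : c0 ≠ c1)
    {v0 v1 v2 : XV A B g} (o00 : On c0 v0) (o10 : On c1 v0)
    (o11 : On c1 v1) (o21 : On c2 v1)
    (o22 : On c2 v2) (o02 : On c0 v2) :
    (v0 = v1 ∧ v0 = v2) ∨ ∃ e0 e1 e2, TTri hg hgeo hι c0 c1 c2 v0 v1 v2 e0 e1 e2 := by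
  obtain ⟨q0, rfl⟩ := p0
  obtain ⟨q1, rfl⟩ := p1
  obtain ⟨q2, rfl⟩ := p2
  exact three_PPL hA M hSC k01 o00 o10 o11 o21 o22 o02

theorem uniq' (hA : ∀ x ∈ A, ∀ y ∈ A, x * y = y * x) {c0 c1 c2 c2' : Car A B g}
    (p0 : IsPl c0) (p1 : IsPl c1)
    {v0 v1 v2 v1' v2' : XV A B g} {e0 e1 e2 e0' e1' e2' : XE A B g}
    (h : TTri hg hgeo hι c0 c1 c2 v0 v1 v2 e0 e1 e2)
    (h' : TTri hg hgeo hι c0 c1 c2' v0 v1' v2' e0' e1' e2') : c2 = c2' := by
  obtain ⟨q0, rfl⟩ := p0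
  obtain ⟨q1, rfl⟩ := p1
  exact TTri.uniq hA h h'

theorem NTwo.no {c : Car A B g} {z : PP A B g} (h : NTwo hg hgeo hι c z) {y : XV A B g}
    {e : XE A B g} (hs : SideP hg hgeo hι c y (z • y) [e]) : False := by
  have := h _ _ hs
  simp at this

theorem NTwo.no' {c : Car A B g} {z : PP A B g} (h : NTwo hg hgeo hι c z) {y : XV A B g}
    {e : XE A B g} (hs : SideP hg hgeo hι c (z • y) y [e]) : False := by
  have := h _ _ hs.rev
  simp at this

theorem not_pl_ln {c : Car A B g} (h : IsPl c) (h' : IsLn c) : False := by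
  obtain ⟨q, rfl⟩ := h
  obtain ⟨q', h'⟩ := h'
  exact plane_ne_line h'

namespace Fr

variable {F : Fr A B g}

theorem Ok.HH' (hS : StabStmt A B g) (h : F.Ok hg hgeo hι) : F.H ≠ F.H' := by
  intro h1
  have h2 := h.xH
  rw [← h1] at h2
  exact h.dCH (hS _ _ F.x h.x1 h.xC h2)

/-- the hub carriers are disjoint -/
theorem Ok.disjH (hA : ∀ x ∈ A, ∀ y ∈ A, x * y = y * x) (M : Mods) (hSC : (XX hg hgeo hι).SC)
    (hQ : Q1Stmt hg hgeo hι) (hS : StabStmt A B g) (hF : F.Ok hg hgeo hι) (n : XV A B g)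
    (h1 : On F.H n) (h2 : On F.H' n) : False := by
  have hHH := hF.HH' hS
  by_cases k0 : 1 ≤ F.k hg hgeo hι
  · refine hQ F.C F.H F.x hF.xC hF.x1 hF.dCH k0 ?_ n h1 (by rw [hF.xH]; exact h2)
    intro hl
    rcases hF.kls with h3 | h3
    · exact absurd hl (fun h4 => not_pl_ln h3.1 h4)
    · exact Or.inr h3.2.2.2.2.1
  by_cases k1 : 1 ≤ F.k' hg hgeo hι
  · refine hQ F.C' F.H' F.x' hF.xC' hF.x1' hF.dCH' k1 ?_ n h2 (by rw [hF.xH']; exact h1)
    intro hl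
    rcases hF.kls with h3 | h3
    · exact absurd hl (fun h4 => not_pl_ln h3.2.1 h4)
    · exact Or.inr h3.2.2.2.2.2.1
  have e0 : F.k hg hgeo hι = 0 := by omega
  have e1 : F.k' hg hgeo hι = 0 := by omega
  obtain ⟨p, hp1, hp2⟩ := dCC_eq_zero.1 e0
  obtain ⟨q, hq1, hq2⟩ := dCC_eq_zero.1 e1
  have hxp1 : On F.C (F.x • p) := by
    have := hp1.smul F.x
    rwa [hF.xC] at this
  have hxp2 : On F.H' (F.x • p) := by
    have := hp2.smul F.x
    rwa [hF.xH] at this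
  have hxq1 : On F.C' (F.x' • q) := by
    have := hq1.smul F.x'
    rwa [hF.xC'] at this
  have hxq2 : On F.H (F.x' • q) := by
    have := hq2.smul F.x'
    rwa [hF.xH'] at this
  have pH' : IsPl F.H → IsPl F.H' := by
    intro h
    have := h.smul F.x
    rwa [hF.xH] at this
  have lH' : IsLn F.H → IsLn F.H' := by
    intro h
    have := h.smul F.x
    rwa [hF.xH] at this
  rcases hF.kls with ⟨p1, p2, p3, h3⟩ | ⟨h4, r1, r2, r3, n1, n2, n3⟩
  · apply h3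
    constructor
    · by_contra hr
      obtain ⟨-, k2⟩ := three_PPP hA M hSC p1 p3 (pH' p3) hF.dCH hHH hF.dCH2.symm hp1 hp2 h1 h2
        hxp2 hxp1
      exact not_fix hr p k2.symm
    · by_contra hr
      obtain ⟨-, k2⟩ := three_PPP hA M hSC p2 (pH' p3) p3 hF.dCH' hHH.symm hF.dCH2'.symm hq1 hq2
        h2 h1 hxq2 hxq1
      exact not_fix hr q k2.symm
  · rcases h4 with ⟨t1, t2, t3⟩ | ⟨t1, t2, t3⟩ | ⟨t1, t2, t3⟩
    · rcases three_PL hA M hSC t3 (pH' t3) t1 hHH h1 h2 hxp2 hxp1 hp1 hp2 with ⟨k1, k2⟩ |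
        ⟨e0, e1, e2, T1⟩
      · exact not_fix r1 p (k1.symm.trans k2)
      · exact NTwo.no' n1 T1.h2
    · obtain ⟨-, k2⟩ := three_PPP hA M hSC t1 t3 (pH' t3) hF.dCH hHH hF.dCH2.symm hp1 hp2 h1 h2
        hxp2 hxp1
      exact not_fix r1 p k2.symm
    · obtain ⟨k1, k2⟩ := three_LL hA M hSC t3 (lH' t3) hHH hF.dCH2.symm hF.dCH h1 h2 hxp2 hxp1
        hp1 hp2
      exact not_fix r1 p (k1.symm.trans k2)

/-- the lobe carriers are disjoint -/
theorem Ok.disjC (hA : ∀ x ∈ A, ∀ y ∈ A, x * y = y * x) (M : Mods) (hSC : (XX hg hgeo hι).SC)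
    (hS : StabStmt A B g) (hF : F.Ok hg hgeo hι) (n : XV A B g)
    (h1 : On F.C n) (h2 : On F.C' n) : False := by
  have hHH := hF.HH' hS
  have hd : dCC hg hgeo hι F.C F.C' = 0 := dCC_eq_zero.2 ⟨n, h1, h2⟩
  have v1 := hF.v1
  have v2 := hF.v2
  rw [hd] at v1 v2
  have e0 : F.k hg hgeo hι = 0 := by omega
  have e1 : F.k' hg hgeo hι = 0 := by omega
  obtain ⟨p, hp1, hp2⟩ := dCC_eq_zero.1 e0
  obtain ⟨q, hq1, hq2⟩ := dCC_eq_zero.1 e1
  have hxp1 : On F.C (F.x • p) := by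
    have := hp1.smul F.x
    rwa [hF.xC] at this
  have hxp2 : On F.H' (F.x • p) := by
    have := hp2.smul F.x
    rwa [hF.xH] at this
  have hxq1 : On F.C' (F.x' • q) := by
    have := hq1.smul F.x'
    rwa [hF.xC'] at this
  have hxq2 : On F.H (F.x' • q) := by
    have := hq2.smul F.x'
    rwa [hF.xH'] at this
  have pH' : IsPl F.H → IsPl F.H' := by
    intro h
    have := h.smul F.x
    rwa [hF.xH] at this
  have lH' : IsLn F.H → IsLn F.H' := by
    intro h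
    have := h.smul F.x
    rwa [hF.xH] at this
  rcases hF.kls with ⟨p1, p2, p3, h3⟩ | ⟨h4, r1, r2, r3, n1, n2, n3⟩
  · -- all planes: `x p = q = n` and `p = x' q = n`
    obtain ⟨a1, a2⟩ := three_PPP hA M hSC p1 (pH' p3) p2 hF.dCH2 hF.dCH'.symm hF.dCC'.symm
      hxp1 hxp2 hq2 hq1 h2 h1
    obtain ⟨b1, b2⟩ := three_PPP hA M hSC p1 p3 p2 hF.dCH hF.dCH2'.symm hF.dCC'.symm
      hp1 hp2 hxq2 hxq1 h2 h1
    apply h3
    constructor
    · by_contra hr
      exact not_fix hr p (a2.trans b2.symm)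
    · by_contra hr
      apply not_fix hr q
      rw [← b1, b2, ← a2, a1]
  · rcases h4 with ⟨t1, t2, t3⟩ | ⟨t1, t2, t3⟩ | ⟨t1, t2, t3⟩
    · -- `C` is the line
      have A1 := three_PL hA M hSC (pH' t3) t2 t1 hF.dCH'.symm hq2 hq1 h2 h1 hxp1 hxp2
      have A2 := three_PL hA M hSC t3 t2 t1 hF.dCH2'.symm hxq2 hxq1 h2 h1 hp1 hp2
      rcases A1 with ⟨a1, a2⟩ | ⟨e0, e1, e2, T1⟩
      · rcases A2 with ⟨b1, b2⟩ | ⟨f0, f1, f2, T2⟩
        · apply not_fix r1 p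
          rw [← a2, a1, ← b1, b2]
        · have := T2.h2
          rw [← a1, a2] at this
          exact NTwo.no' n1 this
      · rcases A2 with ⟨b1, b2⟩ | ⟨f0, f1, f2, T2⟩
        · have := T1.h2
          rw [← b1, b2] at this
          exact NTwo.no n1 this
        · have T3 := TTri_act F.x'⁻¹ T2
          have hH : F.x'⁻¹ • F.H = F.H' := by rw [← hF.xH', inv_smul_smul]
          rw [hH, stab_inv hF.xC', inv_smul_smul] at T3
          have h5 := uniq' hA (pH' t3) t2 T1 T3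
          have h6 : F.x' • F.C = F.C := by
            rw [h5, smul_inv_smul]
            exact h5
          exact hF.dCC' (hS _ _ F.x' hF.x1' h6 hF.xC')
    · -- `C'` is the line
      have A1 := three_PL hA M hSC t1 (pH' t3) t2 hF.dCH2 hxp1 hxp2 hq2 hq1 h2 h1
      have A2 := three_PL hA M hSC t1 t3 t2 hF.dCH hp1 hp2 hxq2 hxq1 h2 h1
      rcases A1 with ⟨a1, a2⟩ | ⟨e0, e1, e2, T1⟩
      · rcases A2 with ⟨b1, b2⟩ | ⟨f0, f1, f2, T2⟩
        · exact not_fix r1 p (a2.trans b2.symm)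
        · have := T2.h2
          rw [← a2, a1] at this
          exact NTwo.no' n2 this
      · rcases A2 with ⟨b1, b2⟩ | ⟨f0, f1, f2, T2⟩
        · have := T1.h2
          rw [← b2, b1] at this
          exact NTwo.no n2 this
        · have T3 := TTri_act F.x T2
          rw [hF.xH, hF.xC] at T3
          have h5 := uniq' hA t1 (pH' t3) T1 T3
          exact hF.dCC' (hS _ _ F.x hF.x1 hF.xC h5.symm)
    · -- `H` is a line
      have A1 := three_PL hA M hSC t1 t2 (lH' t3) hF.dCC' h1 h2 hq1 hq2 hxp2 hxp1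
      have A2 := three_PL hA M hSC t1 t2 t3 hF.dCC' h1 h2 hxq1 hxq2 hp2 hp1
      rcases A1 with ⟨a1, a2⟩ | ⟨e0, e1, e2, T1⟩
      · rcases A2 with ⟨b1, b2⟩ | ⟨f0, f1, f2, T2⟩
        · exact not_fix r1 p (a2.symm.trans b2)
        · have := T2.h0
          rw [a2] at this
          exact NTwo.no n1 this
      · rcases A2 with ⟨b1, b2⟩ | ⟨f0, f1, f2, T2⟩
        · have := T1.h0
          rw [b2] at this
          exact NTwo.no' n1 this
        · exact hHH (uniq' hA t1 t2 T1 T2).symm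

end Fr

end Pool.Agent.ABA.B.H50
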