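import Pool.Agent.Helper50_ABB.CvDefs

/-!
# Frames: symmetries, triples, existence of minimal polygons (MP_d857f1_al, part B, case V)
-/

set_option autoImplicit false

namespace Pool.Agent.ABA.B.H50

open Pool.Agent.ABA Pool.Agent.ABA.B Pool.Agent.ABA.B.TG Pool.Agent.ABA.B.H17

variable {G : Type} [Group G] {A B : Subgroup G} {g : G}
variable {hg : ¬ IsABA A B g} {hgeo : Geo A B} {hι : Function.Injective (Pι A B g)}

theorem act_act (z z' : PP A B g) (w : List (XE A B g)) :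
    (w.map (actE z)).map (actE z') = w.map (actE (z' * z)) := by
  rw [List.map_map, actE_mul]

theorem act_one (w : List (XE A B g)) : w.map (actE (1 : PP A B g)) = w := by
  rw [actE_one, List.map_id]

theorem act_inv_act (z : PP A B g) (w : List (XE A B g)) :
    (w.map (actE z)).map (actE z⁻¹) = w := by
  rw [act_act, inv_mul_cancel, act_one]

/-- the reversed lobe is a lobe -/
theorem lobe_rv (z : PP A B g) (γ s : List (XE A B g)) :
    (XX hg hgeo hι).rv (lobe hg hgeo hι z γ s) =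
      lobe hg hgeo hι z⁻¹ (γ.map (actE z)) ((XX hg hgeo hι).rv s) := by
  unfold lobe
  rw [rv_append, rv_append, rv_act, rv_rv, rv_act, act_inv_act, List.append_assoc]

theorem IsLobe.path {c : Car A B g} {z : PP A B g} {p : XV A B g} {k : ℕ}
    {γ s : List (XE A B g)} (h : IsLobe hg hgeo hι c z p k γ s) :
    (XX hg hgeo hι).IsP p (lobe hg hgeo hι z γ s) (z • p) := by
  obtain ⟨y, hy, h1, h2⟩ := h.mid
  exact isP_append.2 ⟨_, isP_append.2 ⟨y, h1, h2.1⟩, IsP_act z h1.rv⟩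

theorem IsLobe.mi {c : Car A B g} {z : PP A B g} {p : XV A B g} {k : ℕ}
    {γ s : List (XE A B g)} (h : IsLobe hg hgeo hι c z p k γ s) (hz : z • c = c) :
    IsLobe hg hgeo hι c z⁻¹ (z • p) k (γ.map (actE z)) ((XX hg hgeo hι).rv s) where
  len := by rw [List.length_map, h.len]
  mid := by
    obtain ⟨y, hy, h1, h2⟩ := h.mid
    refine ⟨z • y, ?_, IsP_act z h1, ?_⟩
    · have := hy.smul z
      rwa [hz] at this
    · rw [inv_smul_smul]
      exact h2.rev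
  rot := by
    intro hr
    rw [h.rot (Rot_inv.1 hr), rv_nil]

namespace Fr

variable {F : Fr A B g}

@[simp] theorem ex_ex (F : Fr A B g) : F.ex.ex = F := rfl

@[simp] theorem mi_mi (F : Fr A B g) : F.mi.mi = F := by
  cases F
  simp [mi]

theorem Ok.kk (h : F.Ok hg hgeo hι) : dCC hg hgeo hι F.C F.H' = F.k hg hgeo hι := by
  have h1 := dCC_smul (hg := hg) (hgeo := hgeo) (hι := hι) F.x F.C F.H
  rw [h.xC, h.xH] at h1
  exact h1

theorem Ok.kk' (h : F.Ok hg hgeo hι) : dCC hg hgeo hι F.C' F.H = F.k' hg hgeo hι := by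
  have h1 := dCC_smul (hg := hg) (hgeo := hgeo) (hι := hι) F.x' F.C' F.H'
  rw [h.xC', h.xH'] at h1
  exact h1

theorem Ok.dCH2 (h : F.Ok hg hgeo hι) : F.C ≠ F.H' := by
  intro h1
  apply h.dCH
  rw [← inv_smul_smul F.x F.H, h.xH, ← h1]
  exact (stab_inv h.xC).symm

theorem Ok.dCH2' (h : F.Ok hg hgeo hι) : F.C' ≠ F.H := by
  intro h1
  apply h.dCH'
  rw [← inv_smul_smul F.x' F.H', h.xH', ← h1]
  exact (stab_inv h.xC').symm

theorem Ok.ex_k (_ : F.Ok hg hgeo hι) : F.ex.k hg hgeo hι = F.k' hg hgeo hι := rfl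
theorem Ok.ex_k' (_ : F.Ok hg hgeo hι) : F.ex.k' hg hgeo hι = F.k hg hgeo hι := rfl
theorem Ok.mi_k (h : F.Ok hg hgeo hι) : F.mi.k hg hgeo hι = F.k hg hgeo hι := h.kk
theorem Ok.mi_k' (h : F.Ok hg hgeo hι) : F.mi.k' hg hgeo hι = F.k' hg hgeo hι := h.kk'

theorem Ok.ex (h : F.Ok hg hgeo hι) : F.ex.Ok hg hgeo hι where
  xC := h.xC'
  xH := h.xH'
  xC' := h.xC
  xH' := h.xH
  x1 := h.x1'
  x1' := h.x1
  dCH := h.dCH'
  dCH' := h.dCH
  dCC' := h.dCC'.symm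
  y1 := by
    intro n
    have h1 := h.y2 n
    change F.k' hg hgeo hι + F.k hg hgeo hι ≤ dVC hg hgeo hι n F.C' + dVC hg hgeo hι n F.C +
      dVC hg hgeo hι n F.H'
    omega
  y2 := by
    intro n
    have h1 := h.y1 n
    change F.k' hg hgeo hι + F.k hg hgeo hι ≤ dVC hg hgeo hι n F.C' + dVC hg hgeo hι n F.C +
      dVC hg hgeo hι n F.H
    omega
  v1 := by
    have h1 := h.v2
    change F.k' hg hgeo hι + F.k hg hgeo hι ≤ dCC hg hgeo hι F.C' F.C + F.k' hg hgeo hι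
    rw [dCC_comm F.C']
    omega
  v2 := by
    have h1 := h.v1
    change F.k' hg hgeo hι + F.k hg hgeo hι ≤ dCC hg hgeo hι F.C' F.C + F.k hg hgeo hι
    rw [dCC_comm F.C']
    omega
  kls := by
    rcases h.kls with ⟨h1, h2, h3, h4⟩ | ⟨h1, h2, h3, h4, h5, h6, h7⟩
    · left
      refine ⟨h2, h1, ?_, fun h5 => h4 ⟨h5.2, h5.1⟩⟩
      have := h3.smul F.x
      rwa [h.xH] at this
    · right
      have e : F.x * F.x' = F.x * (F.x' * F.x) * F.x⁻¹ := by group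
      refine ⟨?_, h3, h2, ?_, h6, h5, ?_⟩
      · have p1 : ∀ h : IsPl F.H, IsPl F.H' := by
          intro h8
          have := h8.smul F.x
          rwa [h.xH] at this
        have p2 : ∀ h : IsLn F.H, IsLn F.H' := by
          intro h8
          have := h8.smul F.x
          rwa [h.xH] at this
        rcases h1 with ⟨a, b, c⟩ | ⟨a, b, c⟩ | ⟨a, b, c⟩
        · exact Or.inr (Or.inl ⟨b, a, p1 c⟩)
        · exact Or.inl ⟨b, a, p1 c⟩
        · exact Or.inr (Or.inr ⟨b, a, p2 c⟩)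
      · change ¬ Rot (F.x * F.x')
        rw [e, Rot_conj]
        exact h4
      · change NTwo hg hgeo hι F.H' (F.x * F.x')
        rw [e, ← h.xH]
        exact h7.conj F.x

theorem Ok.mi (h : F.Ok hg hgeo hι) : F.mi.Ok hg hgeo hι where
  xC := stab_inv h.xC
  xH := by
    change F.x⁻¹ • F.H' = F.H
    rw [← h.xH, inv_smul_smul]
  xC' := stab_inv h.xC'
  xH' := by
    change F.x'⁻¹ • F.H = F.H'
    rw [← h.xH', inv_smul_smul]
  x1 := inv_ne_one.2 h.x1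
  x1' := inv_ne_one.2 h.x1'
  dCH := h.dCH2
  dCH' := h.dCH2'
  dCC' := h.dCC'
  y1 := by
    intro n
    rw [h.mi_k, h.mi_k']
    exact h.y2 n
  y2 := by
    intro n
    rw [h.mi_k, h.mi_k']
    exact h.y1 n
  v1 := by
    rw [h.mi_k, h.mi_k']
    exact h.v1
  v2 := by
    rw [h.mi_k, h.mi_k']
    exact h.v2
  kls := by
    rcases h.kls with ⟨h1, h2, h3, h4⟩ | ⟨h1, h2, h3, h4, h5, h6, h7⟩
    · left
      refine ⟨h1, h2, ?_, fun h5 => h4 ⟨Rot_inv.1 h5.1, Rot_inv.1 h5.2⟩⟩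
      have := h3.smul F.x
      rwa [h.xH] at this
    · right
      have e : F.x'⁻¹ * F.x⁻¹ = (F.x * (F.x' * F.x) * F.x⁻¹)⁻¹ := by group
      refine ⟨?_, fun h8 => h2 (Rot_inv.1 h8), fun h8 => h3 (Rot_inv.1 h8), ?_, h5.inv, h6.inv, ?_⟩
      · have p1 : ∀ h : IsPl F.H, IsPl F.H' := by
          intro h8
          have := h8.smul F.x
          rwa [h.xH] at this
        have p2 : ∀ h : IsLn F.H, IsLn F.H' := by
          intro h8
          have := h8.smul F.x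
          rwa [h.xH] at this
        rcases h1 with ⟨a, b, c⟩ | ⟨a, b, c⟩ | ⟨a, b, c⟩
        · exact Or.inl ⟨a, b, p1 c⟩
        · exact Or.inr (Or.inl ⟨a, b, p1 c⟩)
        · exact Or.inr (Or.inr ⟨a, b, p2 c⟩)
      · change ¬ Rot (F.x'⁻¹ * F.x⁻¹)
        rw [e, Rot_inv, Rot_conj]
        exact h4
      · change NTwo hg hgeo hι F.H' (F.x'⁻¹ * F.x⁻¹)
        rw [e, ← h.xH]
        exact (h7.conj F.x).inv

/-- the frame of a minimal triple -/
theorem ok_ofT {K : Trp A B g → Prop} {L : ℕ} (hK : Trp.Cls K) (hL : Trp.Low hg hgeo hι K L)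
    {T : Trp A B g} (hT : K T) (hV : T.LV hg hgeo hι = L)
    (hKls : T.Rt ∨ T.Lt hg hgeo hι) : (ofT T).Ok hg hgeo hι := by
  have h0 := hK.ok T hT
  have hI := hur_stmt (hg := hg) (hgeo := hgeo) (hι := hι) K L hK hL T hT
  have e3 : T.z3⁻¹ = T.z1 * T.z2 := by
    rw [inv_eq_iff_mul_eq_one.2]
    have := mul3_cyc (mul3_cyc h0.mul)
    rwa [← mul_assoc]
  have ek : (ofT T).k hg hgeo hι = dCC hg hgeo hι T.c1 T.c3 := rfl
  have ek' : (ofT T).k' hg hgeo hι = dCC hg hgeo hι T.c2 T.c3 := dCC_smul _ _ _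
  have hk : (ofT T).k hg hgeo hι + (ofT T).k' hg hgeo hι = L := by
    rw [ek, ek', ← hV]; rfl
  have exx : (ofT T).x' * (ofT T).x = T.z3⁻¹ := by
    change T.z1 * T.z2 * T.z1⁻¹ * T.z1 = T.z3⁻¹
    rw [e3]; group
  refine ⟨h0.s1, rfl, stab_conj h0.s2, ?_, h0.n1, conj_ne_one h0.n2, h0.d13, ?_, hI.ne, ?_, ?_, ?_,
    ?_, ?_⟩
  · change (T.z1 * T.z2 * T.z1⁻¹) • T.z1 • T.c3 = T.c3
    rw [smul_smul, inv_mul_cancel_right, ← e3]
    exact stab_inv h0.s3
  · intro h1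
    exact h0.d23 (smul_left_cancel _ h1)
  · intro n
    rw [hk]
    exact hI.y1 n
  · intro n
    rw [hk]
    exact hI.y2 n
  · rw [hk, ek]
    exact hI.hub1
  · rw [hk, ek']
    exact hI.hub2
  · rcases hKls with h1 | h1
    · obtain ⟨-, p1, p2, p3, h2⟩ := h1
      left
      refine ⟨p1, p2.smul _, p3, ?_⟩
      rintro ⟨r1, r2⟩
      have r1' : Rot T.z1 := r1
      have r2' : Rot T.z2 := by
        have h3 : Rot (T.z1 * T.z2 * T.z1⁻¹) := r2
        rwa [Rot_conj] at h3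
      have r3' : Rot T.z3 := by
        rw [← Rot_inv, e3]
        exact Rot_mul r1' r2'
      rcases h2 with h2 | h2 | h2
      · exact h2.1 r1'
      · exact h2.1 r2'
      · exact h2.1 r1'
    · obtain ⟨-, h2, r1, r2, r3, n1, n2, n3⟩ := h1
      right
      refine ⟨?_, r1, ?_, ?_, n1, n2.conj _, ?_⟩
      · rcases h2 with ⟨a, b, c⟩ | ⟨a, b, c⟩ | ⟨a, b, c⟩
        · exact Or.inl ⟨a, b.smul _, c⟩
        · exact Or.inr (Or.inl ⟨a, b.smul _, c⟩)
        · exact Or.inr (Or.inr ⟨a, b.smul _, c⟩)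
      · change ¬ Rot (T.z1 * T.z2 * T.z1⁻¹)
        rw [Rot_conj]
        exact r2
      · rw [exx, Rot_inv]
        exact r3
      · rw [exx]
        exact n3.inv

/-! ## polygons -/

variable {p q : XV A B g} {γ s b γ' s' a : List (XE A B g)}

theorem Poly.path (h : F.Poly hg hgeo hι p q γ s b γ' s' a) :
    (XX hg hgeo hι).IsP p (F.word hg hgeo hι γ s b γ' s' a) p :=
  isP_append.2 ⟨_, isP_append.2 ⟨_, isP_append.2 ⟨_, h.l1.path, h.hb.1⟩, h.l2.path⟩, h.ha.1⟩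

theorem Poly.cl (h : F.Poly hg hgeo hι p q γ s b γ' s' a) :
    (XX hg hgeo hι).Cl (F.word hg hgeo hι γ s b γ' s' a) := ⟨p, h.path⟩

theorem Poly.ex (h : F.Poly hg hgeo hι p q γ s b γ' s' a) :
    F.ex.Poly hg hgeo hι q p γ' s' a γ s b := ⟨h.hq, h.hp, h.l2, h.l1, h.ha, h.hb⟩

theorem Poly.mi (hF : F.Ok hg hgeo hι) (h : F.Poly hg hgeo hι p q γ s b γ' s' a) :
    F.mi.Poly hg hgeo hι (F.x • p) (F.x' • q) (γ.map (actE F.x)) ((XX hg hgeo hι).rv s)
      ((XX hg hgeo hι).rv a) (γ'.map (actE F.x')) ((XX hg hgeo hι).rv s')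
      ((XX hg hgeo hι).rv b) where
  hp := by
    have := h.hp.smul F.x
    rwa [hF.xH] at this
  hq := by
    have := h.hq.smul F.x'
    rwa [hF.xH'] at this
  l1 := by
    rw [hF.mi_k]
    exact h.l1.mi hF.xC
  l2 := by
    rw [hF.mi_k']
    exact h.l2.mi hF.xC'
  hb := by
    change SideP hg hgeo hι F.H (F.x⁻¹ • F.x • p) (F.x' • q) _
    rw [inv_smul_smul]
    exact h.ha.rev
  ha := by
    change SideP hg hgeo hι F.H' (F.x'⁻¹ • F.x' • q) (F.x • p) _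
    rw [inv_smul_smul]
    exact h.hb.rev

section areas

variable (M : Mods) (hSC : (XX hg hgeo hι).SC)
include M hSC

theorem area_ex (h : F.Poly hg hgeo hι p q γ s b γ' s' a) :
    F.ex.area hg hgeo hι γ' s' a γ s b = F.area hg hgeo hι γ s b γ' s' a := by
  have h1 : F.ex.word hg hgeo hι γ' s' a γ s b =
      (lobe hg hgeo hι F.x' γ' s' ++ a) ++ (lobe hg hgeo hι F.x γ s ++ b) := by
    unfold word
    simp only [List.append_assoc]
    rfl
  have h2 : F.word hg hgeo hι γ s b γ' s' a =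
      (lobe hg hgeo hι F.x γ s ++ b) ++ (lobe hg hgeo hι F.x' γ' s' ++ a) := by
    unfold word
    simp only [List.append_assoc]
  unfold area
  rw [h1, h2]
  have h3 := h.cl
  rw [h2] at h3
  exact (H89.ar_rot M hSC h3).symm

theorem area_mi (h : F.Poly hg hgeo hι p q γ s b γ' s' a) :
    F.mi.area hg hgeo hι (γ.map (actE F.x)) ((XX hg hgeo hι).rv s)
      ((XX hg hgeo hι).rv a) (γ'.map (actE F.x')) ((XX hg hgeo hι).rv s')
      ((XX hg hgeo hι).rv b) = F.area hg hgeo hι γ s b γ' s' a := by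
  have h1 : F.mi.word hg hgeo hι (γ.map (actE F.x)) ((XX hg hgeo hι).rv s)
      ((XX hg hgeo hι).rv a) (γ'.map (actE F.x')) ((XX hg hgeo hι).rv s')
      ((XX hg hgeo hι).rv b) =
      (XX hg hgeo hι).rv (lobe hg hgeo hι F.x γ s) ++ ((XX hg hgeo hι).rv a ++
        (XX hg hgeo hι).rv (lobe hg hgeo hι F.x' γ' s') ++ (XX hg hgeo hι).rv b) := by
    unfold word
    rw [lobe_rv, lobe_rv]
    simp only [List.append_assoc]
    rfl
  have h2 : (XX hg hgeo hι).rv (F.word hg hgeo hι γ s b γ' s' a) =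
      ((XX hg hgeo hι).rv a ++
        (XX hg hgeo hι).rv (lobe hg hgeo hι F.x' γ' s') ++ (XX hg hgeo hι).rv b) ++
        (XX hg hgeo hι).rv (lobe hg hgeo hι F.x γ s) := by
    unfold word
    simp only [rv_append, List.append_assoc]
  have h3 : (XX hg hgeo hι).Cl ((XX hg hgeo hι).rv (F.word hg hgeo hι γ s b γ' s' a)) :=
    ⟨p, h.path.rv⟩
  have h4 := (M.area _ _ _ hSC).2.2.2.1 _ h.cl
  unfold area
  rw [← h4, h1, h2]
  rw [h2] at h3
  exact (H89.ar_rot M hSC h3).symm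

theorem Mini.ex (hm : F.Mini hg hgeo hι γ s b γ' s' a) (h : F.Poly hg hgeo hι p q γ s b γ' s' a) :
    F.ex.Mini hg hgeo hι γ' s' a γ s b := by
  intro p₁ q₁ γ₁ s₁ b₁ γ₂ s₂ a₁ h1
  have h1' : F.Poly hg hgeo hι q₁ p₁ γ₂ s₂ a₁ γ₁ s₁ b₁ := ⟨h1.hq, h1.hp, h1.l2, h1.l1, h1.ha, h1.hb⟩
  have h2 := hm q₁ p₁ γ₂ s₂ a₁ γ₁ s₁ b₁ h1'
  rw [area_ex M hSC h, area_ex M hSC h1']
  refine ⟨h2.1, fun h3 => ?_⟩
  have := h2.2 h3
  omega

theorem Mini.mi (hF : F.Ok hg hgeo hι) (hm : F.Mini hg hgeo hι γ s b γ' s' a)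
    (h : F.Poly hg hgeo hι p q γ s b γ' s' a) :
    F.mi.Mini hg hgeo hι (γ.map (actE F.x)) ((XX hg hgeo hι).rv s)
      ((XX hg hgeo hι).rv a) (γ'.map (actE F.x')) ((XX hg hgeo hι).rv s')
      ((XX hg hgeo hι).rv b) := by
  intro p₁ q₁ γ₁ s₁ b₁ γ₂ s₂ a₁ h1
  have h2 := h1.mi hF.mi
  have e1 := area_mi M hSC h
  have e2 := area_mi M hSC h1
  rw [mi_mi] at h2 e2
  have h3 := hm _ _ _ _ _ _ _ _ h2
  rw [e1, ← e2]
  refine ⟨h3.1, fun h4 => ?_⟩
  have := h3.2 h4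
  simp only [rv_length] at this ⊢
  omega

end areas

/-- existence of lobes -/
theorem exists_lobe (hfix : FixStmt A B g) {c H : Car A B g} {z : PP A B g} (hz : z • c = c)
    (hz1 : z ≠ 1) : ∃ p γ s, On H p ∧ IsLobe hg hgeo hι c z p (dCC hg hgeo hι c H) γ s := by
  obtain ⟨p, hp, h1⟩ := exists_dCC_slit (hg := hg) (hgeo := hgeo) (hι := hι) H c
  obtain ⟨y, γ, hy, h2, h3⟩ := exists_slit (hg := hg) (hgeo := hgeo) (hι := hι) p c
  have hy' : On c (z • y) := by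
    have := hy.smul z
    rwa [hz] at this
  by_cases hr : Rot z
  · refine ⟨p, γ, [], hp, ?_, ⟨y, hy, h2, ?_, by simp⟩, fun _ => rfl⟩
    · rw [h3, h1, dCC_comm]
    · exact (((hfix c z hz1 hz).1 hr y).2 hy).symm
  · obtain ⟨s, hs⟩ := car_conn hg hgeo hι hy hy'
    refine ⟨p, γ, s, hp, ?_, ⟨y, hy, h2, hs⟩, fun h => absurd h hr⟩
    rw [h3, h1, dCC_comm]

theorem exists_poly (hfix : FixStmt A B g) (hF : F.Ok hg hgeo hι) :
    ∃ p q γ s b γ' s' a, F.Poly hg hgeo hι p q γ s b γ' s' a := by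
  obtain ⟨p, γ, s, hp, h1⟩ := exists_lobe (hg := hg) (hgeo := hgeo) (hι := hι) (H := F.H) hfix
    hF.xC hF.x1
  obtain ⟨q, γ', s', hq, h2⟩ := exists_lobe (hg := hg) (hgeo := hgeo) (hι := hι) (H := F.H') hfix
    hF.xC' hF.x1'
  have hp' : On F.H' (F.x • p) := by
    have := hp.smul F.x
    rwa [hF.xH] at this
  have hq' : On F.H (F.x' • q) := by
    have := hq.smul F.x'
    rwa [hF.xH'] at this
  obtain ⟨b, hb⟩ := car_conn hg hgeo hι hp' hq
  obtain ⟨a, ha⟩ := car_conn hg hgeo hι hq' hp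
  exact ⟨p, q, γ, s, b, γ', s', a, hp, hq, h1, h2, hb, ha⟩

/-- tuple of polygon data -/
structure PT {G : Type} [Group G] (A B : Subgroup G) (g : G) where
  p : XV A B g
  q : XV A B g
  γ : List (XE A B g)
  s : List (XE A B g)
  b : List (XE A B g)
  γ' : List (XE A B g)
  s' : List (XE A B g)
  a : List (XE A B g)

theorem exists_mini (hfix : FixStmt A B g) (hF : F.Ok hg hgeo hι) :
    ∃ p q γ s b γ' s' a, F.Poly hg hgeo hι p q γ s b γ' s' a ∧
      F.Mini hg hgeo hι γ s b γ' s' a := by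
  obtain ⟨p, q, γ, s, b, γ', s', a, h⟩ := exists_poly hfix hF
  have key := lex_min (A := PT A B g)
    (fun t => F.Poly hg hgeo hι t.p t.q t.γ t.s t.b t.γ' t.s' t.a)
    (fun t => F.area hg hgeo hι t.γ t.s t.b t.γ' t.s' t.a)
    (fun t => t.s.length + t.b.length + t.s'.length + t.a.length)
    ⟨⟨p, q, γ, s, b, γ', s', a⟩, h⟩
  obtain ⟨t, ht, hmin⟩ := key
  exact ⟨t.p, t.q, t.γ, t.s, t.b, t.γ', t.s', t.a, ht, fun p₁ q₁ γ₁ s₁ b₁ γ₂ s₂ a₁ h1 =>
    hmin ⟨p₁, q₁, γ₁, s₁, b₁, γ₂, s₂, a₁⟩ h1⟩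

end Fr

end Pool.Agent.ABA.B.H50
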