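import Pool.Agent.Helper50_ABB.CvEF

/-!
# Case V: a minimal two-lobe polygon is pinch-free (MP_d857f1_al, part B, module CVPF)
-/

set_option autoImplicit false

namespace Pool.Agent.ABA.B.H50

open Knd Pool.Agent.ABA Pool.Agent.ABA.B Pool.Agent.ABA.B.TG Pool.Agent.ABA.B.H17
  Pool.Agent.ABA.B.H89

variable {G : Type} [Group G] {A B : Subgroup G} {g : G}
variable {hg : ¬ IsABA A B g} {hgeo : Geo A B} {hι : Function.Injective (Pι A B g)}

/-! ## generalities -/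

/-- splitting a path in two parts -/
theorem seg_split {V E : Type} {S : TG V E} {e e' n : V} {P Q l r : List E} (h : P ++ Q = l ++ r)
    (hP : S.IsP e P e') (hl : S.IsP e l n) :
    (∃ u v, P = u ++ v ∧ l = u ∧ r = v ++ Q ∧ S.IsP e u n ∧ S.IsP n v e') ∨
      ∃ l', l = P ++ l' ∧ Q = l' ++ r ∧ S.IsP e' l' n := by
  rcases cut2 h with ⟨v, h1, h2⟩ | ⟨l', h1, h2⟩
  · left
    refine ⟨l, v, h1, rfl, h2, hl, ?_⟩
    rw [h1] at hP
    obtain ⟨z, h3, h4⟩ := isP_append.1 hP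
    rwa [h3.eq hl] at h4
  · right
    refine ⟨l', h2, h1, ?_⟩
    rw [h2] at hl
    obtain ⟨z, h3, h4⟩ := isP_append.1 hl
    rwa [h3.eq hP] at h4

theorem isP_side {c : Car A B g} {x y n : XV A B g} {u v : List (XE A B g)}
    (h : SideP hg hgeo hι c x y (u ++ v)) (hu : (XX hg hgeo hι).IsP x u n) :
    SideP hg hgeo hι c x n u ∧ SideP hg hgeo hι c n y v := by
  obtain ⟨z, h1, h2⟩ := h.split
  have h3 := h1.1.eq hu
  subst h3
  exact ⟨h1, h2⟩

/-- the hub end of a slit -/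
theorem slit_hub {c D : Car A B g} {n f : XV A B g} {u v : List (XE A B g)}
    (hv : (XX hg hgeo hι).IsP n v f) (hf : On c f) (hn : On D n)
    (hl : u.length + v.length ≤ dCC hg hgeo hι c D) : u = [] := by
  have h1 := dCC_le (hg := hg) (hgeo := hgeo) (hι := hι) hf hn
  have h2 := dst_le hv.rv
  rw [rv_length] at h2
  exact List.eq_nil_of_length_eq_zero (by omega)

/-- the foot of a slit -/
theorem slit_foot {c D : Car A B g} {n h : XV A B g} {u v : List (XE A B g)}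
    (hu : (XX hg hgeo hι).IsP h u n) (hh : On D h) (hn : On c n)
    (hl : u.length + v.length ≤ dCC hg hgeo hι c D) : v = [] := by
  have h1 := dCC_le (hg := hg) (hgeo := hgeo) (hι := hι) hn hh
  have h2 := dst_le hu.rv
  rw [rv_length] at h2
  exact List.eq_nil_of_length_eq_zero (by omega)

theorem nil_l {R : Prop} {E : Type} {s u v : List E} (hr : R → s = []) (e : s = u ++ v) :
    R → u = [] := by
  intro h
  have := hr h
  rw [e] at this
  exact (List.append_eq_nil_iff.1 this).1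

theorem nil_r {R : Prop} {E : Type} {s u v : List E} (hr : R → s = []) (e : s = u ++ v) :
    R → v = [] := by
  intro h
  have := hr h
  rw [e] at this
  exact (List.append_eq_nil_iff.1 this).2

theorem nil_m {R : Prop} {E : Type} {s u t v : List E} (hr : R → s = []) (e : s = u ++ (t ++ v)) :
    R → u ++ v = [] := by
  intro h
  rw [nil_l hr e h, nil_r (nil_r hr e) rfl h]
  rfl

theorem nil_path {V E : Type} {S : TG V E} {x y : V} (h : S.IsP x [] y) : x = y := h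

/-- The data of a polygon, with all what is needed for the coincidences. -/
structure Dat (hg : ¬ IsABA A B g) (hgeo : Geo A B) (hι : Function.Injective (Pι A B g))
    (F : Fr A B g) (p q y y' : XV A B g) (γ s gx b γ' s' gx' a : List (XE A B g)) : Prop where
  hγ : (XX hg hgeo hι).IsP p γ y
  hs : SideP hg hgeo hι F.C y (F.x • y) s
  hgx : (XX hg hgeo hι).IsP (F.x • y) gx (F.x • p)
  hb : SideP hg hgeo hι F.H' (F.x • p) q b
  hγ' : (XX hg hgeo hι).IsP q γ' y'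
  hs' : SideP hg hgeo hι F.C' y' (F.x' • y') s'
  hgx' : (XX hg hgeo hι).IsP (F.x' • y') gx' (F.x' • q)
  ha : SideP hg hgeo hι F.H (F.x' • q) p a
  r : Rot F.x → s = []
  r' : Rot F.x' → s' = []
  oy : On F.C y
  oy2 : On F.C (F.x • y)
  oy' : On F.C' y'
  oy2' : On F.C' (F.x' • y')
  op : On F.H p
  op2 : On F.H' (F.x • p)
  oq : On F.H' q
  oq2 : On F.H (F.x' • q)
  dH : ∀ n, On F.H n → On F.H' n → False
  dC : ∀ n, On F.C n → On F.C' n → False
  -- sides
  c28 : ∀ n, On F.C n → On F.H n → γ = [] ∧ gx = [] ∧ n = p ∧ p = y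
  c24 : ∀ n, On F.C n → On F.H' n → γ = [] ∧ gx = [] ∧ n = F.x • p ∧ p = y
  c64 : ∀ n, On F.C' n → On F.H' n → γ' = [] ∧ gx' = [] ∧ n = q ∧ q = y'
  c68 : ∀ n, On F.C' n → On F.H n → γ' = [] ∧ gx' = [] ∧ n = F.x' • q ∧ q = y'
  -- slits
  h1 : ∀ u v n, γ = u ++ v → (XX hg hgeo hι).IsP p u n → (XX hg hgeo hι).IsP n v y →
    (On F.H n ∨ On F.H' n ∨ On F.C' n → u = [] ∧ n = p) ∧ (On F.C n → v = [] ∧ n = y)
  h3 : ∀ u v n, gx = u ++ v → (XX hg hgeo hι).IsP (F.x • y) u n →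
    (XX hg hgeo hι).IsP n v (F.x • p) →
    (On F.H n ∨ On F.H' n ∨ On F.C' n → v = [] ∧ n = F.x • p) ∧ (On F.C n → u = [] ∧ n = F.x • y)
  h5 : ∀ u v n, γ' = u ++ v → (XX hg hgeo hι).IsP q u n → (XX hg hgeo hι).IsP n v y' →
    (On F.H n ∨ On F.H' n ∨ On F.C n → u = [] ∧ n = q) ∧ (On F.C' n → v = [] ∧ n = y')
  h7 : ∀ u v n, gx' = u ++ v → (XX hg hgeo hι).IsP (F.x' • y') u n →
    (XX hg hgeo hι).IsP n v (F.x' • q) →
    (On F.H n ∨ On F.H' n ∨ On F.C n → v = [] ∧ n = F.x' • q) ∧ (On F.C' n → u = [] ∧ n = F.x' • y')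
  -- slits of different lobes
  h15 : ∀ u v u' v' n, γ = u ++ v → (XX hg hgeo hι).IsP p u n → (XX hg hgeo hι).IsP n v y →
    γ' = u' ++ v' → (XX hg hgeo hι).IsP q u' n → (XX hg hgeo hι).IsP n v' y' → False
  h17 : ∀ u v u' v' n, γ = u ++ v → (XX hg hgeo hι).IsP p u n → (XX hg hgeo hι).IsP n v y →
    gx' = u' ++ v' → (XX hg hgeo hι).IsP (F.x' • y') u' n →
    (XX hg hgeo hι).IsP n v' (F.x' • q) → u = [] ∧ v' = [] ∧ n = p ∧ n = F.x' • q
  h35 : ∀ u v u' v' n, gx = u ++ v → (XX hg hgeo hι).IsP (F.x • y) u n →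
    (XX hg hgeo hι).IsP n v (F.x • p) →
    γ' = u' ++ v' → (XX hg hgeo hι).IsP q u' n → (XX hg hgeo hι).IsP n v' y' →
    v = [] ∧ u' = [] ∧ n = F.x • p ∧ n = q
  h37 : ∀ u v u' v' n, gx = u ++ v → (XX hg hgeo hι).IsP (F.x • y) u n →
    (XX hg hgeo hι).IsP n v (F.x • p) →
    gx' = u' ++ v' → (XX hg hgeo hι).IsP (F.x' • y') u' n →
    (XX hg hgeo hι).IsP n v' (F.x' • q) → False
  -- slits of the same lobe
  h11 : ∀ u t v n, γ = u ++ (t ++ v) → (XX hg hgeo hι).IsP p u n → (XX hg hgeo hι).IsP n t n →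
    (XX hg hgeo hι).IsP n v y → t = []
  h33 : ∀ u t v n, gx = u ++ (t ++ v) → (XX hg hgeo hι).IsP (F.x • y) u n →
    (XX hg hgeo hι).IsP n t n → (XX hg hgeo hι).IsP n v (F.x • p) → t = []
  h55 : ∀ u t v n, γ' = u ++ (t ++ v) → (XX hg hgeo hι).IsP q u n → (XX hg hgeo hι).IsP n t n →
    (XX hg hgeo hι).IsP n v y' → t = []
  h77 : ∀ u t v n, gx' = u ++ (t ++ v) → (XX hg hgeo hι).IsP (F.x' • y') u n →
    (XX hg hgeo hι).IsP n t n → (XX hg hgeo hι).IsP n v (F.x' • q) → t = []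
  h13 : ∀ u v u' v' n, γ = u ++ v → (XX hg hgeo hι).IsP p u n → (XX hg hgeo hι).IsP n v y →
    gx = u' ++ v' → (XX hg hgeo hι).IsP (F.x • y) u' n →
    (XX hg hgeo hι).IsP n v' (F.x • p) → v = [] ∧ s = [] ∧ u' = []
  h57 : ∀ u v u' v' n, γ' = u ++ v → (XX hg hgeo hι).IsP q u n → (XX hg hgeo hι).IsP n v y' →
    gx' = u' ++ v' → (XX hg hgeo hι).IsP (F.x' • y') u' n →
    (XX hg hgeo hι).IsP n v' (F.x' • q) → v = [] ∧ s' = [] ∧ u' = []

/-- no closed block on a slit -/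
theorem slit_same {c D : Car A B g} {n f h : XV A B g} {u t v : List (XE A B g)}
    (hu : (XX hg hgeo hι).IsP h u n) (hv : (XX hg hgeo hι).IsP n v f) (hf : On c f) (hh : On D h)
    (hl : (u ++ (t ++ v)).length ≤ dCC hg hgeo hι c D) : t = [] := by
  have h1 := dCC_le (hg := hg) (hgeo := hgeo) (hι := hι) hf hh
  have h2 := dst_le (isP_append.2 ⟨n, hv.rv, hu.rv⟩)
  rw [List.length_append, rv_length, rv_length] at h2
  simp only [List.length_append] at hl
  exact List.eq_nil_of_length_eq_zero (by omega)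

/-- a vertex on a slit and on its image is the foot -/
theorem slit_back (hfix : FixStmt A B g) {c D D' : Car A B g} {z : PP A B g} {n p y : XV A B g}
    {γ u v u' v' : List (XE A B g)} (hz : z • c = c) (hz1 : z ≠ 1) (hy : On c y) (hp : On D p)
    (hp' : On D' (z • p)) (hk : γ.length ≤ dCC hg hgeo hι c D) (hk' : γ.length ≤ dCC hg hgeo hι c D')
    (e1 : γ = u ++ v) (hu : (XX hg hgeo hι).IsP p u n) (hv : (XX hg hgeo hι).IsP n v y)
    (e2 : ((XX hg hgeo hι).rv γ).map (actE z) = u' ++ v')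
    (hu' : (XX hg hgeo hι).IsP (z • y) u' n) (hv' : (XX hg hgeo hι).IsP n v' (z • p)) :
    v = [] ∧ Rot z ∧ u' = [] := by
  have oy : On c (z • y) := by
    have := hy.smul z
    rwa [hz] at this
  have l0 : γ.length = u.length + v.length := by rw [e1, List.length_append]
  have l0' : γ.length = u'.length + v'.length := by
    have := congrArg List.length e2
    rw [List.length_map, rv_length, List.length_append] at this
    exact this
  have d1 := dCC_le (hg := hg) (hgeo := hgeo) (hι := hι) oy hp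
  have d2 := dst_le (isP_append.2 ⟨n, hu', hu.rv⟩)
  have d3 := dCC_le (hg := hg) (hgeo := hgeo) (hι := hι) hy hp'
  have d4 := dst_le (isP_append.2 ⟨n, hv.rv, hv'⟩)
  rw [List.length_append, rv_length] at d2 d4
  have hlen : ((XX hg hgeo hι).rv v).length = u'.length := by
    rw [rv_length]
    omega
  rw [e1, rv_append, List.map_append] at e2
  have e3 := List.append_inj_left e2 (by rw [List.length_map]; exact hlen)
  have h1 : (XX hg hgeo hι).IsP (z • y) u' (z • n) := by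
    rw [← e3]
    exact IsP_act z hv.rv
  have h2 : z • n = n := h1.eq hu'
  have hr : Rot z := by
    by_contra hr
    exact not_fix hr n h2
  have h3 : On c n := ((hfix c z hz1 hz).1 hr n).1 h2
  have h4 : v = [] := slit_foot hu hp h3 (by omega)
  refine ⟨h4, hr, ?_⟩
  apply List.eq_nil_of_length_eq_zero
  rw [← hlen, rv_length, h4]
  rfl

theorem dat_of_poly (hA : ∀ x ∈ A, ∀ y ∈ A, x * y = y * x) (M : Mods)
    (hSC : (XX hg hgeo hι).SC) (hQ : Q1Stmt hg hgeo hι) (hS : StabStmt A B g)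
    (hfix : FixStmt A B g) {F : Fr A B g} (hF : F.Ok hg hgeo hι)
    {p q : XV A B g} {γ s b γ' s' a : List (XE A B g)}
    (hP : F.Poly hg hgeo hι p q γ s b γ' s' a) :
    ∃ y y', Dat hg hgeo hι F p q y y' γ s (((XX hg hgeo hι).rv γ).map (actE F.x)) b γ' s'
      (((XX hg hgeo hι).rv γ').map (actE F.x')) a := by
  obtain ⟨hp, hq, ⟨l1, ⟨y, oy, hγ, hs⟩, hr⟩, ⟨l2, ⟨y', oy', hγ', hs'⟩, hr'⟩, hb, ha⟩ := hP
  have oy2 : On F.C (F.x • y) := by
    have := oy.smul F.x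
    rwa [hF.xC] at this
  have oy2' : On F.C' (F.x' • y') := by
    have := oy'.smul F.x'
    rwa [hF.xC'] at this
  have op2 : On F.H' (F.x • p) := by
    have := hp.smul F.x
    rwa [hF.xH] at this
  have oq2 : On F.H (F.x' • q) := by
    have := hq.smul F.x'
    rwa [hF.xH'] at this
  have hgx : (XX hg hgeo hι).IsP (F.x • y) (((XX hg hgeo hι).rv γ).map (actE F.x)) (F.x • p) :=
    IsP_act F.x hγ.rv
  have hgx' : (XX hg hgeo hι).IsP (F.x' • y') (((XX hg hgeo hι).rv γ').map (actE F.x'))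
      (F.x' • q) := IsP_act F.x' hγ'.rv
  have lx : (((XX hg hgeo hι).rv γ).map (actE F.x)).length = γ.length := by
    rw [List.length_map, rv_length]
  have lx' : (((XX hg hgeo hι).rv γ').map (actE F.x')).length = γ'.length := by
    rw [List.length_map, rv_length]
  have a1 : γ.length = dCC hg hgeo hι F.C F.H := l1
  have a2 : γ.length = dCC hg hgeo hι F.C F.H' := by rw [l1, hF.kk]
  have a1' : γ'.length = dCC hg hgeo hι F.C' F.H' := l2
  have a2' : γ'.length = dCC hg hgeo hι F.C' F.H := by rw [l2, hF.kk']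
  have a3 : γ.length ≤ dCC hg hgeo hι F.C F.C' := by
    have := hF.v2
    omega
  have a3' : γ'.length ≤ dCC hg hgeo hι F.C' F.C := by
    have := hF.v1
    rw [dCC_comm] 
    omega
  have y1 : ∀ n, γ.length + γ'.length ≤
      dVC hg hgeo hι n F.C + dVC hg hgeo hι n F.C' + dVC hg hgeo hι n F.H := by
    intro n
    rw [l1, l2]
    exact hF.y1 n
  have y2 : ∀ n, γ.length + γ'.length ≤
      dVC hg hgeo hι n F.C + dVC hg hgeo hι n F.C' + dVC hg hgeo hι n F.H' := by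
    intro n
    rw [l1, l2]
    exact hF.y2 n
  have dH := hF.disjH hA M hSC hQ hS
  have dC := hF.disjC hA M hSC hS
  generalize hG : (((XX hg hgeo hι).rv γ).map (actE F.x)) = gx at hgx lx ⊢
  generalize hG' : (((XX hg hgeo hι).rv γ').map (actE F.x')) = gx' at hgx' lx' ⊢
  refine ⟨y, y', hγ, hs, hgx, hb, hγ', hs', hgx', ha, hr, hr', oy, oy2, oy', oy2', hp, op2, hq, oq2,
    dH, dC, ?_, ?_, ?_, ?_, ?_, ?_, ?_, ?_, ?_, ?_, ?_, ?_, ?_, ?_, ?_, ?_, ?_, ?_⟩
  · intro n h1 h2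
    have h3 : γ = [] := List.eq_nil_of_length_eq_zero (by rw [a1]; exact dCC_eq_zero.2 ⟨n, h1, h2⟩)
    subst h3
    have h4 : gx = [] := List.eq_nil_of_length_eq_zero (by rw [lx]; rfl)
    have h5 : p = y := hγ
    exact ⟨rfl, h4, two_gon hA M hSC hF.dCH h1 (by rw [h5]; exact oy) h2 hp, h5⟩
  · intro n h1 h2
    have h3 : γ = [] := List.eq_nil_of_length_eq_zero (by rw [a2]; exact dCC_eq_zero.2 ⟨n, h1, h2⟩)
    subst h3
    have h4 : gx = [] := List.eq_nil_of_length_eq_zero (by rw [lx]; rfl)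
    have h5 : p = y := hγ
    exact ⟨rfl, h4, two_gon hA M hSC hF.dCH2 h1 (by rw [h5]; exact oy2) h2 op2, h5⟩
  · intro n h1 h2
    have h3 : γ' = [] :=
      List.eq_nil_of_length_eq_zero (by rw [a1']; exact dCC_eq_zero.2 ⟨n, h1, h2⟩)
    subst h3
    have h4 : gx' = [] := List.eq_nil_of_length_eq_zero (by rw [lx']; rfl)
    have h5 : q = y' := hγ'
    exact ⟨rfl, h4, two_gon hA M hSC hF.dCH' h1 (by rw [h5]; exact oy') h2 hq, h5⟩
  · intro n h1 h2
    have h3 : γ' = [] :=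
      List.eq_nil_of_length_eq_zero (by rw [a2']; exact dCC_eq_zero.2 ⟨n, h1, h2⟩)
    subst h3
    have h4 : gx' = [] := List.eq_nil_of_length_eq_zero (by rw [lx']; rfl)
    have h5 : q = y' := hγ'
    exact ⟨rfl, h4, two_gon hA M hSC hF.dCH2' h1 (by rw [h5]; exact oy2') h2 oq2, h5⟩
  · intro u v n h1 h2 h3
    have hl : u.length + v.length = γ.length := by rw [h1, List.length_append]
    constructor
    · intro h4
      have h5 : u = [] := by
        rcases h4 with h4 | h4 | h4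
        · exact slit_hub h3 oy h4 (by omega)
        · exact slit_hub h3 oy h4 (by omega)
        · exact slit_hub h3 oy h4 (by omega)
      subst h5
      exact ⟨rfl, (nil_path h2).symm⟩
    · intro h4
      have h5 : v = [] := slit_foot h2 hp h4 (by omega)
      subst h5
      exact ⟨rfl, nil_path h3⟩
  · intro u v n h1 h2 h3
    have hl : v.length + u.length = γ.length := by rw [← lx, h1, List.length_append]; omega
    have hl' : ((XX hg hgeo hι).rv v).length + ((XX hg hgeo hι).rv u).length = γ.length := by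
      rw [rv_length, rv_length]; exact hl
    constructor
    · intro h4
      have h5 : (XX hg hgeo hι).rv v = [] := by
        rcases h4 with h4 | h4 | h4
        · exact slit_hub h2.rv oy2 h4 (by omega)
        · exact slit_hub h2.rv oy2 h4 (by omega)
        · exact slit_hub h2.rv oy2 h4 (by omega)
      have h6 : v = [] := by
        rw [← rv_rv (S := XX hg hgeo hι) v, h5, rv_nil]
      subst h6
      exact ⟨rfl, nil_path h3⟩
    · intro h4
      have h5 : (XX hg hgeo hι).rv u = [] := slit_foot h3.rv op2 h4 (by omega)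
      have h6 : u = [] := by
        rw [← rv_rv (S := XX hg hgeo hι) u, h5, rv_nil]
      subst h6
      exact ⟨rfl, (nil_path h2).symm⟩
  · intro u v n h1 h2 h3
    have hl : u.length + v.length = γ'.length := by rw [h1, List.length_append]
    constructor
    · intro h4
      have h5 : u = [] := by
        rcases h4 with h4 | h4 | h4
        · exact slit_hub h3 oy' h4 (by omega)
        · exact slit_hub h3 oy' h4 (by omega)
        · exact slit_hub h3 oy' h4 (by omega)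
      subst h5
      exact ⟨rfl, (nil_path h2).symm⟩
    · intro h4
      have h5 : v = [] := slit_foot h2 hq h4 (by omega)
      subst h5
      exact ⟨rfl, nil_path h3⟩
  · intro u v n h1 h2 h3
    have hl : v.length + u.length = γ'.length := by rw [← lx', h1, List.length_append]; omega
    have hl' : ((XX hg hgeo hι).rv v).length + ((XX hg hgeo hι).rv u).length = γ'.length := by
      rw [rv_length, rv_length]; exact hl
    constructor
    · intro h4
      have h5 : (XX hg hgeo hι).rv v = [] := by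
        rcases h4 with h4 | h4 | h4
        · exact slit_hub h2.rv oy2' h4 (by omega)
        · exact slit_hub h2.rv oy2' h4 (by omega)
        · exact slit_hub h2.rv oy2' h4 (by omega)
      have h6 : v = [] := by
        rw [← rv_rv (S := XX hg hgeo hι) v, h5, rv_nil]
      subst h6
      exact ⟨rfl, nil_path h3⟩
    · intro h4
      have h5 : (XX hg hgeo hι).rv u = [] := slit_foot h3.rv oq2 h4 (by omega)
      have h6 : u = [] := by
        rw [← rv_rv (S := XX hg hgeo hι) u, h5, rv_nil]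
      subst h6
      exact ⟨rfl, (nil_path h2).symm⟩
  · intro u v u' v' n h1 h2 h3 h1' h2' h3'
    have hl : u.length + v.length = γ.length := by rw [h1, List.length_append]
    have hl' : u'.length + v'.length = γ'.length := by rw [h1', List.length_append]
    have d1 := dVC_path (hg := hg) (hgeo := hgeo) (hι := hι) oy h3
    have d2 := dVC_path (hg := hg) (hgeo := hgeo) (hι := hι) oy' h3'
    have d3 := dVC_path (hg := hg) (hgeo := hgeo) (hι := hι) hp h2.rv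
    have d4 := dVC_path (hg := hg) (hgeo := hgeo) (hι := hι) hq h2'.rv
    rw [rv_length] at d3 d4
    have d5 := y1 n
    have d6 := y2 n
    have e1 : u = [] := List.eq_nil_of_length_eq_zero (by omega)
    have e2 : u' = [] := List.eq_nil_of_length_eq_zero (by omega)
    subst e1 e2
    refine dH p hp ?_
    rw [nil_path h2, ← nil_path h2']
    exact hq
  · intro u v u' v' n h1 h2 h3 h1' h2' h3'
    have hl : u.length + v.length = γ.length := by rw [h1, List.length_append]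
    have hl' : u'.length + v'.length = γ'.length := by rw [← lx', h1', List.length_append]
    have d1 := dVC_path (hg := hg) (hgeo := hgeo) (hι := hι) oy h3
    have d2 := dVC_path (hg := hg) (hgeo := hgeo) (hι := hι) oy2' h2'.rv
    have d3 := dVC_path (hg := hg) (hgeo := hgeo) (hι := hι) hp h2.rv
    have d4 := dVC_path (hg := hg) (hgeo := hgeo) (hι := hι) oq2 h3'
    rw [rv_length] at d2 d3
    have d5 := y1 n
    have e1 : u = [] := List.eq_nil_of_length_eq_zero (by omega)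
    have e2 : v' = [] := List.eq_nil_of_length_eq_zero (by omega)
    subst e1 e2
    exact ⟨rfl, rfl, (nil_path h2).symm, nil_path h3'⟩
  · intro u v u' v' n h1 h2 h3 h1' h2' h3'
    have hl : u.length + v.length = γ.length := by rw [← lx, h1, List.length_append]
    have hl' : u'.length + v'.length = γ'.length := by rw [h1', List.length_append]
    have d1 := dVC_path (hg := hg) (hgeo := hgeo) (hι := hι) oy2 h2.rv
    have d2 := dVC_path (hg := hg) (hgeo := hgeo) (hι := hι) oy' h3'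
    have d3 := dVC_path (hg := hg) (hgeo := hgeo) (hι := hι) op2 h3
    have d4 := dVC_path (hg := hg) (hgeo := hgeo) (hι := hι) hq h2'.rv
    rw [rv_length] at d1 d4
    have d5 := y2 n
    have e1 : v = [] := List.eq_nil_of_length_eq_zero (by omega)
    have e2 : u' = [] := List.eq_nil_of_length_eq_zero (by omega)
    subst e1 e2
    exact ⟨rfl, rfl, nil_path h3, (nil_path h2').symm⟩
  · intro u v u' v' n h1 h2 h3 h1' h2' h3'
    have hl : u.length + v.length = γ.length := by rw [← lx, h1, List.length_append]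
    have hl' : u'.length + v'.length = γ'.length := by rw [← lx', h1', List.length_append]
    have d1 := dVC_path (hg := hg) (hgeo := hgeo) (hι := hι) oy2 h2.rv
    have d2 := dVC_path (hg := hg) (hgeo := hgeo) (hι := hι) oy2' h2'.rv
    have d3 := dVC_path (hg := hg) (hgeo := hgeo) (hι := hι) op2 h3
    have d4 := dVC_path (hg := hg) (hgeo := hgeo) (hι := hι) oq2 h3'
    rw [rv_length] at d1 d2
    have d5 := y1 n
    have d6 := y2 n
    have e1 : v = [] := List.eq_nil_of_length_eq_zero (by omega)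
    have e2 : v' = [] := List.eq_nil_of_length_eq_zero (by omega)
    subst e1 e2
    refine dH _ oq2 ?_
    rw [← nil_path h3', nil_path h3]
    exact op2
  · intro u t v n h1 h2 _ h3
    exact slit_same h2 h3 oy hp (by rw [← h1]; exact a1.le)
  · intro u t v n h1 h2 _ h3
    have h4 : (XX hg hgeo hι).rv t = [] := by
      refine slit_same (c := F.C) (D := F.H') (u := (XX hg hgeo hι).rv v)
        (v := (XX hg hgeo hι).rv u) h3.rv h2.rv oy2 op2 ?_
      have := congrArg List.length h1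
      simp only [List.length_append, rv_length] at this ⊢
      omega
    rw [← rv_rv (S := XX hg hgeo hι) t, h4, rv_nil]
  · intro u t v n h1 h2 _ h3
    exact slit_same h2 h3 oy' hq (by rw [← h1]; exact a1'.le)
  · intro u t v n h1 h2 _ h3
    have h4 : (XX hg hgeo hι).rv t = [] := by
      refine slit_same (c := F.C') (D := F.H) (u := (XX hg hgeo hι).rv v)
        (v := (XX hg hgeo hι).rv u) h3.rv h2.rv oy2' oq2 ?_
      have := congrArg List.length h1
      simp only [List.length_append, rv_length] at this ⊢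
      omega
    rw [← rv_rv (S := XX hg hgeo hι) t, h4, rv_nil]
  · intro u v u' v' n h1 h2 h3 h1' h2' h3'
    rw [← hG] at h1'
    obtain ⟨k1, k2, k3⟩ := slit_back hfix hF.xC hF.x1 oy hp op2 a1.le a2.le h1 h2 h3 h1' h2' h3'
    exact ⟨k1, hr k2, k3⟩
  · intro u v u' v' n h1 h2 h3 h1' h2' h3'
    rw [← hG'] at h1'
    obtain ⟨k1, k2, k3⟩ := slit_back hfix hF.xC' hF.x1' oy' hq oq2 a1'.le a2'.le h1 h2 h3 h1' h2'
      h3'
    exact ⟨k1, hr' k2, k3⟩

/-- **CVPF**: a minimal two-lobe polygon is pinch-free -/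
theorem cv_pf (hA : ∀ x ∈ A, ∀ y ∈ A, x * y = y * x) (M : Mods)
    (hSC : (XX hg hgeo hι).SC) (hQ : Q1Stmt hg hgeo hι) (hS : StabStmt A B g)
    (hfix : FixStmt A B g) {F : Fr A B g} (hF : F.Ok hg hgeo hι)
    {p q : XV A B g} {γ s b γ' s' a : List (XE A B g)}
    (hP : F.Poly hg hgeo hι p q γ s b γ' s' a) (hM : F.Mini hg hgeo hι γ s b γ' s' a) :
    (XX hg hgeo hι).PF (F.word hg hgeo hι γ s b γ' s' a) := by
  intro p₁ w₂ p₂ hw hw0 hw1 hcl
  by_contra hcon
  rw [not_lt] at hcon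
  obtain ⟨y, y', D⟩ := dat_of_poly hA M hSC hQ hS hfix hF hP
  -- cutting
  have cut : ∀ s1 b1 s2 a1 (W : List (XE A B g)), SideP hg hgeo hι F.C y (F.x • y) s1 →
      (Rot F.x → s1 = []) → SideP hg hgeo hι F.H' (F.x • p) q b1 →
      SideP hg hgeo hι F.C' y' (F.x' • y') s2 → (Rot F.x' → s2 = []) →
      SideP hg hgeo hι F.H (F.x' • q) p a1 → W = F.word hg hgeo hι γ s1 b1 γ' s2 a1 →
      (XX hg hgeo hι).ar W ≤ (XX hg hgeo hι).ar (F.word hg hgeo hι γ s b γ' s' a) →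
      W.length < (F.word hg hgeo hι γ s b γ' s' a).length → False := by
    intro s1 b1 s2 a1 W k1 k2 k3 k4 k5 k6 hW har hlen
    have h1 := (hM p q γ s1 b1 γ' s2 a1 ⟨hP.hp, hP.hq, ⟨hP.l1.len, ⟨y, D.oy, D.hγ, k1⟩, k2⟩,
      ⟨hP.l2.len, ⟨y', D.oy', D.hγ', k4⟩, k5⟩, k3, k6⟩).2 (by rw [hW] at har; exact har)
    rw [hW] at hlen
    simp only [Fr.word, lobe, List.length_append, List.length_map, rv_length] at hlen
    omega
  have l1 : 1 ≤ w₂.length := List.length_pos_iff.2 hw0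
  have l2 : 1 ≤ (p₁ ++ p₂).length := List.length_pos_iff.2 hw1
  have l3 : (F.word hg hgeo hι γ s b γ' s' a).length = w₂.length + (p₁ ++ p₂).length := by
    rw [hw]
    simp only [List.length_append]
    omega
  have cutP : ∀ s1 b1 s2 a1, SideP hg hgeo hι F.C y (F.x • y) s1 →
      (Rot F.x → s1 = []) → SideP hg hgeo hι F.H' (F.x • p) q b1 →
      SideP hg hgeo hι F.C' y' (F.x' • y') s2 → (Rot F.x' → s2 = []) →
      SideP hg hgeo hι F.H (F.x' • q) p a1 → w₂ = F.word hg hgeo hι γ s1 b1 γ' s2 a1 →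
      False := by
    intro s1 b1 s2 a1 k1 k2 k3 k4 k5 k6 k7
    exact cut s1 b1 s2 a1 w₂ k1 k2 k3 k4 k5 k6 k7 (by omega) (by omega)
  have cutR : ∀ s1 b1 s2 a1, SideP hg hgeo hι F.C y (F.x • y) s1 →
      (Rot F.x → s1 = []) → SideP hg hgeo hι F.H' (F.x • p) q b1 →
      SideP hg hgeo hι F.C' y' (F.x' • y') s2 → (Rot F.x' → s2 = []) →
      SideP hg hgeo hι F.H (F.x' • q) p a1 → p₁ ++ p₂ = F.word hg hgeo hι γ s1 b1 γ' s2 a1 →
      False := by
    intro s1 b1 s2 a1 k1 k2 k3 k4 k5 k6 k7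
    exact cut s1 b1 s2 a1 _ k1 k2 k3 k4 k5 k6 k7 (by omega) (by omega)
  -- the vertex
  obtain ⟨n, hp1, hw2⟩ : ∃ n, (XX hg hgeo hι).IsP p p₁ n ∧ (XX hg hgeo hι).IsP n w₂ n := by
    have h1 := hP.path
    rw [hw] at h1
    obtain ⟨n2, h2, h3⟩ := isP_append.1 h1
    obtain ⟨n1, h4, h5⟩ := isP_append.1 h2
    obtain ⟨r, h6⟩ := hcl
    obtain ⟨e, t, rfl⟩ := List.exists_cons_of_ne_nil hw0
    have h7 : n1 = r := h5.src_eq h6
    subst h7
    exact ⟨n1, h4, h6⟩
  clear hcl hcon hw1 l1 l2 l3 cut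
  unfold Fr.word lobe at hw cutP cutR
  generalize (((XX hg hgeo hι).rv γ).map (actE F.x)) = gx at hw cutP cutR D
  generalize (((XX hg hgeo hι).rv γ').map (actE F.x')) = gx' at hw cutP cutR D
  have hs0 := D.hs
  have hb0 := D.hb
  have hs0' := D.hs'
  have ha0 := D.ha
  have hr := D.r
  have hr' := D.r'
  simp only [List.append_assoc] at hw cutP cutR
  rcases seg_split hw (D.hγ) hp1 with ⟨u, v, e1, a1, e3, i1, i2⟩ | ⟨t1, a1, hw, i0⟩
  · -- start on segment 1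
    rcases seg_split (e3.symm) (i2) (hw2) with ⟨u2, v2, g1, g2, g3, j1, j2⟩ | ⟨r1, m1, hx, j0⟩
    · exact hw0 (by rw [g2]; exact D.h11 _ _ _ _ (by rw [e1, g1]) i1 j1 j2)
    rcases seg_split (hx) (hs0.1) (j0) with ⟨u2, v2, g1, g2, g3, j1, j2⟩ | ⟨r2, m2, hx, j0⟩
    · obtain ⟨k1, k2⟩ := isP_side (by rw [← g1]; exact hs0) j1
      obtain ⟨hv, hn⟩ := (D.h1 u v n e1 i1 i2).2 (k1.on D.oy)
      rw [hn] at k2
      exact cutR v2 b s' a k2 (nil_r D.r g1) hb0 hs0' D.r' ha0 (by simp [a1, g3, e1, hv])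
    rcases seg_split (hx) (D.hgx) (j0) with ⟨u2, v2, g1, g2, g3, j1, j2⟩ | ⟨r3, m3, hx, j0⟩
    · obtain ⟨n1, n2, n3⟩ := D.h13 u v u2 v2 n e1 i1 i2 g1 j1 j2
      exact hw0 (by simp [m1, m2, g2, n1, n2, n3])
    rcases seg_split (hx) (hb0.1) (j0) with ⟨u2, v2, g1, g2, g3, j1, j2⟩ | ⟨r4, m4, hx, j0⟩
    · have k1 := (isP_side (by rw [← g1]; exact hb0) j1).1.on D.op2
      obtain ⟨-, hn⟩ := (D.h1 u v n e1 i1 i2).1 (Or.inr (Or.inl k1))
      rw [hn] at k1
      exact D.dH p D.op k1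
    rcases seg_split (hx) (D.hγ') (j0) with ⟨u2, v2, g1, g2, g3, j1, j2⟩ | ⟨r5, m5, hx, j0⟩
    · exact D.h15 u v u2 v2 n e1 i1 i2 g1 j1 j2
    rcases seg_split (hx) (hs0'.1) (j0) with ⟨u2, v2, g1, g2, g3, j1, j2⟩ | ⟨r6, m6, hx, j0⟩
    · obtain ⟨k1, k2⟩ := isP_side (by rw [← g1]; exact hs0') j1
      have k3 := k1.on D.oy'
      obtain ⟨hu, hn⟩ := (D.h1 u v n e1 i1 i2).1 (Or.inr (Or.inr k3))
      obtain ⟨c1, c2, c3, c4⟩ := D.c68 n k3 (by rw [hn]; exact D.op)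
      rw [c3, c4] at k1
      exact cutP s b u2 [] hs0 D.r hb0 k1 (nil_l D.r' g1) ⟨c3.symm.trans hn, by simp⟩
        (by simp [m1, m2, m3, m4, m5, g2, e1, hu, c2])
    rcases seg_split (hx) (D.hgx') (j0) with ⟨u2, v2, g1, g2, g3, j1, j2⟩ | ⟨r7, m7, hx, j0⟩
    · obtain ⟨n1, n2, n3, n4⟩ := D.h17 u v u2 v2 n e1 i1 i2 g1 j1 j2
      exact cutP s b s' [] hs0 D.r hb0 hs0' D.r' ⟨n4.symm.trans n3, by simp⟩
        (by simp [m1, m2, m3, m4, m5, m6, g2, e1, g1, n1, n2])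
    obtain ⟨k1, k2⟩ := isP_side (by rw [← hx]; exact ha0) j0
    obtain ⟨hu, hn⟩ := (D.h1 u v n e1 i1 i2).1 (Or.inl (k1.on D.oq2))
    rw [hn] at k1
    exact cutP s b s' r7 hs0 D.r hb0 hs0' D.r' k1 (by simp [m1, m2, m3, m4, m5, m6, m7, e1, hu])
  rcases seg_split hw (hs0.1) i0 with ⟨u, v, e1, a2, e3, i1, i2⟩ | ⟨t2, a2, hw, i0⟩
  · -- start on segment 2
    obtain ⟨q1, q2⟩ := isP_side (by rw [← e1]; exact hs0) i1
    have oC := q1.on D.oy
    rcases seg_split (e3.symm) (i2) (hw2) with ⟨u2, v2, g1, g2, g3, j1, j2⟩ | ⟨r2, m2, hx, j0⟩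
    · obtain ⟨k1, k2⟩ := isP_side (by rw [← g1]; exact q2) j1
      exact cutR (u ++ v2) b s' a (q1.append hg hgeo hι k2) (nil_m D.r (e1.trans (by rw [g1]))) hb0 hs0'
        D.r' ha0 (by simp [a1, a2, g3])
    rcases seg_split (hx) (D.hgx) (j0) with ⟨u2, v2, g1, g2, g3, j1, j2⟩ | ⟨r3, m3, hx, j0⟩
    · obtain ⟨hu, hn⟩ := (D.h3 u2 v2 n g1 j1 j2).2 oC
      rw [hn] at q1
      exact cutR u b s' a q1 (nil_l D.r e1) hb0 hs0' D.r' ha0 (by simp [a1, a2, g3, g1, hu])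
    rcases seg_split (hx) (hb0.1) (j0) with ⟨u2, v2, g1, g2, g3, j1, j2⟩ | ⟨r4, m4, hx, j0⟩
    · obtain ⟨k1, k2⟩ := isP_side (by rw [← g1]; exact hb0) j1
      obtain ⟨c1, c2, c3, c4⟩ := D.c24 n oC (k1.on D.op2)
      rw [c3] at k2
      rw [c3, c4] at q1
      exact cutR u v2 s' a q1 (nil_l D.r e1) k2 hs0' D.r' ha0 (by simp [a1, a2, g3, c1, c2])
    rcases seg_split (hx) (D.hγ') (j0) with ⟨u2, v2, g1, g2, g3, j1, j2⟩ | ⟨r5, m5, hx, j0⟩
    · obtain ⟨hu, hn⟩ := (D.h5 u2 v2 n g1 j1 j2).1 (Or.inr (Or.inr oC))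
      obtain ⟨c1, c2, c3, c4⟩ := D.c24 n oC (by rw [hn]; exact D.oq)
      have k3 := q1
      rw [c3, c4] at k3
      exact cutR u [] s' a k3 (nil_l D.r e1) ⟨c3.symm.trans hn, by simp⟩ hs0' D.r' ha0
        (by simp [a1, a2, g3, g1, hu, c1, c2])
    rcases seg_split (hx) (hs0'.1) (j0) with ⟨u2, v2, g1, g2, g3, j1, j2⟩ | ⟨r6, m6, hx, j0⟩
    · have k1 := (isP_side (by rw [← g1]; exact hs0') j1).1.on D.oy'
      exact D.dC n oC k1
    rcases seg_split (hx) (D.hgx') (j0) with ⟨u2, v2, g1, g2, g3, j1, j2⟩ | ⟨r7, m7, hx, j0⟩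
    · obtain ⟨hv, hn⟩ := (D.h7 u2 v2 n g1 j1 j2).1 (Or.inr (Or.inr oC))
      obtain ⟨c1, c2, c3, c4⟩ := D.c28 n oC (by rw [hn]; exact D.oq2)
      have k3 := q2
      rw [c3, c4] at k3
      exact cutP v b s' [] k3 (nil_r D.r e1) hb0 hs0' D.r' ⟨hn.symm.trans c3, by simp⟩
        (by simp [m2, m3, m4, m5, m6, g2, g1, hv, c1, c2])
    obtain ⟨k1, k2⟩ := isP_side (by rw [← hx]; exact ha0) j0
    obtain ⟨c1, c2, c3, c4⟩ := D.c28 n oC (k1.on D.oq2)
    rw [c3] at k1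
    have k3 := q2
    rw [c3, c4] at k3
    exact cutP v b s' r7 k3 (nil_r D.r e1) hb0 hs0' D.r' k1 (by simp [m2, m3, m4, m5, m6, m7, c1, c2])
  rcases seg_split hw (D.hgx) i0 with ⟨u, v, e1, a3, e3, i1, i2⟩ | ⟨t3, a3, hw, i0⟩
  · -- start on segment 3
    rcases seg_split (e3.symm) (i2) (hw2) with ⟨u2, v2, g1, g2, g3, j1, j2⟩ | ⟨r3, m3, hx, j0⟩
    · exact hw0 (by rw [g2]; exact D.h33 _ _ _ _ (by rw [e1, g1]) i1 j1 j2)
    rcases seg_split (hx) (hb0.1) (j0) with ⟨u2, v2, g1, g2, g3, j1, j2⟩ | ⟨r4, m4, hx, j0⟩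
    · obtain ⟨k1, k2⟩ := isP_side (by rw [← g1]; exact hb0) j1
      obtain ⟨hv, hn⟩ := (D.h3 u v n e1 i1 i2).1 (Or.inr (Or.inl (k1.on D.op2)))
      rw [hn] at k2
      exact cutR s v2 s' a hs0 D.r k2 hs0' D.r' ha0 (by simp [a1, a2, a3, g3, e1, hv])
    rcases seg_split (hx) (D.hγ') (j0) with ⟨u2, v2, g1, g2, g3, j1, j2⟩ | ⟨r5, m5, hx, j0⟩
    · obtain ⟨n1, n2, n3, n4⟩ := D.h35 u v u2 v2 n e1 i1 i2 g1 j1 j2
      exact cutR s [] s' a hs0 D.r ⟨n3.symm.trans n4, by simp⟩ hs0' D.r' ha0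
        (by simp [a1, a2, a3, g3, e1, g1, n1, n2])
    rcases seg_split (hx) (hs0'.1) (j0) with ⟨u2, v2, g1, g2, g3, j1, j2⟩ | ⟨r6, m6, hx, j0⟩
    · obtain ⟨k1, k2⟩ := isP_side (by rw [← g1]; exact hs0') j1
      have k3 := k1.on D.oy'
      obtain ⟨hv, hn⟩ := (D.h3 u v n e1 i1 i2).1 (Or.inr (Or.inr k3))
      obtain ⟨c1, c2, c3, c4⟩ := D.c64 n k3 (by rw [hn]; exact D.op2)
      have k4 := k2
      rw [c3, c4] at k4
      exact cutR s [] v2 a hs0 D.r ⟨hn.symm.trans c3, by simp⟩ k4 (nil_r D.r' g1) ha0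
        (by simp [a1, a2, a3, g3, e1, hv, c1, c2])
    rcases seg_split (hx) (D.hgx') (j0) with ⟨u2, v2, g1, g2, g3, j1, j2⟩ | ⟨r7, m7, hx, j0⟩
    · exact D.h37 u v u2 v2 n e1 i1 i2 g1 j1 j2
    have k1 := (isP_side (by rw [← hx]; exact ha0) j0).1.on D.oq2
    obtain ⟨-, hn⟩ := (D.h3 u v n e1 i1 i2).1 (Or.inl k1)
    exact D.dH n k1 (by rw [hn]; exact D.op2)
  rcases seg_split hw (hb0.1) i0 with ⟨u, v, e1, a4, e3, i1, i2⟩ | ⟨t4, a4, hw, i0⟩
  · -- start on segment 4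
    obtain ⟨q1, q2⟩ := isP_side (by rw [← e1]; exact hb0) i1
    have oC := q1.on D.op2
    rcases seg_split (e3.symm) (i2) (hw2) with ⟨u2, v2, g1, g2, g3, j1, j2⟩ | ⟨r4, m4, hx, j0⟩
    · obtain ⟨k1, k2⟩ := isP_side (by rw [← g1]; exact q2) j1
      exact cutR s (u ++ v2) s' a hs0 D.r (q1.append hg hgeo hι k2) hs0' D.r' ha0 (by simp [a1, a2, a3, a4, g3])
    rcases seg_split (hx) (D.hγ') (j0) with ⟨u2, v2, g1, g2, g3, j1, j2⟩ | ⟨r5, m5, hx, j0⟩
    · obtain ⟨hu, hn⟩ := (D.h5 u2 v2 n g1 j1 j2).1 (Or.inr (Or.inl oC))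
      rw [hn] at q1
      exact cutR s u s' a hs0 D.r q1 hs0' D.r' ha0 (by simp [a1, a2, a3, a4, g3, g1, hu])
    rcases seg_split (hx) (hs0'.1) (j0) with ⟨u2, v2, g1, g2, g3, j1, j2⟩ | ⟨r6, m6, hx, j0⟩
    · obtain ⟨k1, k2⟩ := isP_side (by rw [← g1]; exact hs0') j1
      obtain ⟨c1, c2, c3, c4⟩ := D.c64 n (k1.on D.oy') oC
      have k4 := k2
      rw [c3, c4] at k4
      rw [c3] at q1
      exact cutR s u v2 a hs0 D.r q1 k4 (nil_r D.r' g1) ha0 (by simp [a1, a2, a3, a4, g3, c1, c2])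
    rcases seg_split (hx) (D.hgx') (j0) with ⟨u2, v2, g1, g2, g3, j1, j2⟩ | ⟨r7, m7, hx, j0⟩
    · obtain ⟨hv, hn⟩ := (D.h7 u2 v2 n g1 j1 j2).1 (Or.inr (Or.inl oC))
      exact D.dH n (by rw [hn]; exact D.oq2) oC
    have k1 := (isP_side (by rw [← hx]; exact ha0) j0).1.on D.oq2
    exact D.dH n k1 oC
  rcases seg_split hw (D.hγ') i0 with ⟨u, v, e1, a5, e3, i1, i2⟩ | ⟨t5, a5, hw, i0⟩
  · -- start on segment 5
    rcases seg_split (e3.symm) (i2) (hw2) with ⟨u2, v2, g1, g2, g3, j1, j2⟩ | ⟨r5, m5, hx, j0⟩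
    · exact hw0 (by rw [g2]; exact D.h55 _ _ _ _ (by rw [e1, g1]) i1 j1 j2)
    rcases seg_split (hx) (hs0'.1) (j0) with ⟨u2, v2, g1, g2, g3, j1, j2⟩ | ⟨r6, m6, hx, j0⟩
    · obtain ⟨k1, k2⟩ := isP_side (by rw [← g1]; exact hs0') j1
      obtain ⟨hv, hn⟩ := (D.h5 u v n e1 i1 i2).2 (k1.on D.oy')
      rw [hn] at k2
      exact cutR s b v2 a hs0 D.r hb0 k2 (nil_r D.r' g1) ha0 (by simp [a1, a2, a3, a4, a5, g3, e1, hv])
    rcases seg_split (hx) (D.hgx') (j0) with ⟨u2, v2, g1, g2, g3, j1, j2⟩ | ⟨r7, m7, hx, j0⟩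
    · obtain ⟨n1, n2, n3⟩ := D.h57 u v u2 v2 n e1 i1 i2 g1 j1 j2
      exact hw0 (by simp [m5, m6, g2, n1, n2, n3])
    have k1 := (isP_side (by rw [← hx]; exact ha0) j0).1.on D.oq2
    obtain ⟨-, hn⟩ := (D.h5 u v n e1 i1 i2).1 (Or.inl k1)
    exact D.dH n k1 (by rw [hn]; exact D.oq)
  rcases seg_split hw (hs0'.1) i0 with ⟨u, v, e1, a6, e3, i1, i2⟩ | ⟨t6, a6, hw, i0⟩
  · -- start on segment 6
    obtain ⟨q1, q2⟩ := isP_side (by rw [← e1]; exact hs0') i1
    have oC := q1.on D.oy'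
    rcases seg_split (e3.symm) (i2) (hw2) with ⟨u2, v2, g1, g2, g3, j1, j2⟩ | ⟨r6, m6, hx, j0⟩
    · obtain ⟨k1, k2⟩ := isP_side (by rw [← g1]; exact q2) j1
      exact cutR s b (u ++ v2) a hs0 D.r hb0 (q1.append hg hgeo hι k2)
        (nil_m D.r' (e1.trans (by rw [g1]))) ha0 (by simp [a1, a2, a3, a4, a5, a6, g3])
    rcases seg_split (hx) (D.hgx') (j0) with ⟨u2, v2, g1, g2, g3, j1, j2⟩ | ⟨r7, m7, hx, j0⟩
    · obtain ⟨hu, hn⟩ := (D.h7 u2 v2 n g1 j1 j2).2 oC
      rw [hn] at q1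
      exact cutR s b u a hs0 D.r hb0 q1 (nil_l D.r' e1) ha0 (by simp [a1, a2, a3, a4, a5, a6, g3, g1, hu])
    obtain ⟨k1, k2⟩ := isP_side (by rw [← hx]; exact ha0) j0
    obtain ⟨c1, c2, c3, c4⟩ := D.c68 n oC (k1.on D.oq2)
    rw [c3] at k2
    rw [c3, c4] at q1
    exact cutR s b u p₂ hs0 D.r hb0 q1 (nil_l D.r' e1) k2 (by simp [a1, a2, a3, a4, a5, a6, c1, c2])
  rcases seg_split hw (D.hgx') i0 with ⟨u, v, e1, a7, e3, i1, i2⟩ | ⟨t7, a7, hw, i0⟩
  · -- start on segment 7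
    rcases seg_split (e3.symm) (i2) (hw2) with ⟨u2, v2, g1, g2, g3, j1, j2⟩ | ⟨r7, m7, hx, j0⟩
    · exact hw0 (by rw [g2]; exact D.h77 _ _ _ _ (by rw [e1, g1]) i1 j1 j2)
    obtain ⟨k1, k2⟩ := isP_side (by rw [← hx]; exact ha0) j0
    obtain ⟨hv, hn⟩ := (D.h7 u v n e1 i1 i2).1 (Or.inl (k1.on D.oq2))
    rw [hn] at k2
    exact cutR s b s' p₂ hs0 D.r hb0 hs0' D.r' k2 (by simp [a1, a2, a3, a4, a5, a6, a7, e1, hv])
  obtain ⟨q1, q2⟩ := isP_side (by rw [← hw]; exact ha0) i0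
  obtain ⟨k1, k2⟩ := isP_side q2 hw2
  exact cutR s b s' (t7 ++ p₂) hs0 D.r hb0 hs0' D.r' (q1.append hg hgeo hι k2)
    (by simp [a1, a2, a3, a4, a5, a6, a7])

end Pool.Agent.ABA.B.H50
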