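import Pool.Agent.Helper50_ABB.CaseC
import Pool.Agent.Helper70_ABA.Lobe70

/-!
# Case V: the exceptional configuration (MP_d857f1_al, part B, section 8)

`k = 0 < k'`, `b = []`, `s` and `a` of length one, three planes, `x'` a rotation.
-/

set_option autoImplicit false

namespace Pool.Agent.ABA.B.H50

open Knd Pool.Agent.ABA Pool.Agent.ABA.B Pool.Agent.ABA.B.TG Pool.Agent.ABA.B.H17
  Pool.Agent.ABA.B.H89 Pool.Agent.ABA.B.H49 Pool.Agent.ABA.B.H94

variable {G : Type} [Group G] {A B : Subgroup G} {g : G}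
variable {hg : ¬ IsABA A B g} {hgeo : Geo A B} {hι : Function.Injective (Pι A B g)}

/-- the triple of a frame -/
def Fr.toT (F : Fr A B g) : Trp A B g :=
  ⟨F.x, F.x⁻¹ * F.x' * F.x, (F.x' * F.x)⁻¹, F.C, F.x⁻¹ • F.C', F.H⟩

theorem Fr.toT_k (F : Fr A B g) : F.toT.z1 * F.toT.z2 * F.toT.z1⁻¹ = F.x' := by
  change F.x * (F.x⁻¹ * F.x' * F.x) * F.x⁻¹ = F.x'
  group

theorem Fr.toT_c2 (F : Fr A B g) : F.toT.z1 • F.toT.c2 = F.C' := by
  change F.x • F.x⁻¹ • F.C' = F.C'
  rw [smul_inv_smul]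

theorem Fr.toT_rt {F : Fr A B g} (hF : F.Ok hg hgeo hι)
    (pC : IsPl F.C) (pC' : IsPl F.C') (pH : IsPl F.H) (rx : ¬ Rot F.x) (rx' : Rot F.x') :
    F.toT.Rt := by
  have hyH : (F.x' * F.x) • F.H = F.H := by
    rw [mul_smul, hF.xH, hF.xH']
  have r3 : ¬ Rot (F.x' * F.x) := by
    intro h
    apply rx
    have := Rot_mul (Rot_inv.2 rx') h
    rwa [← mul_assoc, inv_mul_cancel, one_mul] at this
  have n3 : F.x' * F.x ≠ 1 := by
    intro h
    apply r3
    rw [h]
    unfold Rot
    rw [dg_one, dg_one]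
    exact ⟨rfl, rfl⟩
  refine ⟨⟨?_, hF.xC, ?_, stab_inv hyH, hF.x1, ?_, inv_ne_one.2 n3, ?_, ?_, hF.dCH⟩, pC,
    pC'.smul _, pH, Or.inr (Or.inr ⟨rx, fun h => r3 (Rot_inv.1 h)⟩)⟩
  · change F.x * (F.x⁻¹ * F.x' * F.x) * (F.x' * F.x)⁻¹ = 1
    group
  · change (F.x⁻¹ * F.x' * F.x) • F.x⁻¹ • F.C' = F.x⁻¹ • F.C'
    rw [smul_smul, mul_assoc, mul_inv_cancel, mul_one, mul_smul, hF.xC']
  · change F.x⁻¹ * F.x' * F.x ≠ 1
    intro h
    apply hF.x1'
    have : F.x' = F.x * (F.x⁻¹ * F.x' * F.x) * F.x⁻¹ := by group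
    rw [this, h]
    group
  · change F.C ≠ F.x⁻¹ • F.C'
    intro h
    apply hF.dCC'
    have h1 := congrArg (F.x • ·) h
    simp only [smul_inv_smul] at h1
    rwa [hF.xC] at h1
  · change F.x⁻¹ • F.C' ≠ F.H
    intro h
    apply hF.dCH'
    rw [← hF.xH, ← h, smul_inv_smul]

theorem split_at {E : Type} (P U Q : List E) (j : ℕ) (hj : j < U.length) :
    P ++ U ++ Q = (P ++ U.take j) ++ U[j] :: (U.drop (j + 1) ++ Q) := by
  have h : U = U.take j ++ U[j] :: U.drop (j + 1) := by
    conv_lhs => rw [← List.take_append_drop j U, List.drop_eq_getElem_cons hj]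
  generalize U.take j = X at h ⊢
  generalize U.drop (j + 1) = Y at h ⊢
  generalize U[j] = u at h ⊢
  rw [h]
  simp only [List.append_assoc, List.cons_append]

/-- the data with drops, from the minimal disc -/
theorem bdA_of_DW {w : List (XE A B g)} {a : ℕ → XE A B g} {W : ℕ → List (XE A B g)}
    {I : List (List (XE A B g))} (hD : DW (XX hg hgeo hι) w a W I) :
    BdA (XX hg hgeo hι) w a W I := by
  refine ⟨hD.bd, hD.get, ?_⟩
  intro i h
  obtain ⟨f1, f2, l, r, h1, h2, h3⟩ := hD.bd.edg i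
  rw [hD.get i h] at h1 h2 h3
  exact ⟨f1, f2, l, r, h1, h2, h3, hD.red i h f1 f2 l h1 h2⟩

/-- the corners at the inner vertices of the slit: at least two each -/
theorem pair3 {c : Car A B g} {z : PP A B g} {p : XV A B g} {k : ℕ}
    {l γ s r w : List (XE A B g)} {a : ℕ → XE A B g} {W : ℕ → List (XE A B g)}
    {I : List (List (XE A B g))} (hw : w = l ++ lobe hg hgeo hι z γ s ++ r)
    (hD : DW (XX hg hgeo hι) w a W I) (hL : LobeMin hg hgeo hι c z p k l γ s r) {j : ℕ}
    (hj0 : 0 < j) (hjk : j < k) : 3 ≤ (W (l.length + j)).length ∧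
      3 ≤ (W (l.length + k + s.length + (k - j))).length := by
  have hlen := hL.lob.len
  obtain ⟨γ1, e, f, γ2, hγ, hl1⟩ : ∃ γ1 e f γ2, γ = γ1 ++ e :: f :: γ2 ∧ γ1.length + 1 = j := by
    refine ⟨γ.take (j - 1), γ[j - 1], γ[j], γ.drop (j + 1), ?_, ?_⟩
    · conv_lhs => rw [← List.take_append_drop (j - 1) γ, List.drop_eq_getElem_cons (by omega)]
      congr 2
      rw [show j - 1 + 1 = j by omega, List.drop_eq_getElem_cons (by omega)]
    · rw [List.length_take]
      omega
  obtain ⟨hnc, hne⟩ := H70L.pair_data hL hγ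
  have ii : ∀ y : XE A B g, xinv (xinv y) = y := fun y => (XX hg hgeo hι).inv_inv y
  have hw' : w = (l ++ γ1) ++ e :: f :: ((γ2 ++ s ++ ((XX hg hgeo hι).rv γ2).map (actE z)) ++
        actE z (xinv f) :: actE z (xinv e) :: (((XX hg hgeo hι).rv γ1).map (actE z) ++ r)) := by
    rw [hw, hγ, H70L.lobe_split]
    simp only [List.append_assoc, List.cons_append]
  have k1 := H70L.dw_wk hD hw'
  have hw'' : w = ((l ++ γ1) ++ e :: f :: (γ2 ++ s ++ ((XX hg hgeo hι).rv γ2).map (actE z))) ++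
        actE z (xinv f) :: actE z (xinv e) :: (((XX hg hgeo hι).rv γ1).map (actE z) ++ r) := by
    rw [hw']
    simp only [List.append_assoc, List.cons_append]
  have k2 := H70L.dw_wk hD hw''
  have p1 : (l ++ γ1).length + 1 = l.length + j := by
    rw [List.length_append]; omega
  have hγl : γ.length = γ1.length + γ2.length + 2 := by
    rw [hγ]; simp; omega
  have p2 : ((l ++ γ1) ++ e :: f :: (γ2 ++ s ++
      ((XX hg hgeo hι).rv γ2).map (actE z))).length + 1 = l.length + k + s.length + (k - j) := by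
    simp only [List.length_append, List.length_cons, List.length_map, rv_length]
    omega
  rw [p1] at k1
  rw [p2] at k2
  have k2' := Slt.wk_map (k := z⁻¹) k2
  rw [xinv_act, ii, Slt.actE_inv_act, Slt.actE_inv_act] at k2'
  have n1 : 2 ≤ (W (l.length + j)).length := by
    rw [← p1]; exact H70L.wk_two_le hD.bd _
  have n2 : 2 ≤ (W (l.length + k + s.length + (k - j))).length := by
    rw [← p2]; exact H70L.wk_two_le hD.bd _
  have n3 : (W (l.length + j)).length ≠ 2 := H70L.wk_len k1 (Or.inr trivial) hnc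
  have n4 : (W (l.length + k + s.length + (k - j))).length ≠ 2 := by
    have := H70L.wk_len k2' (Or.inr trivial) (fun h => hnc (by
      obtain ⟨c0, hc0⟩ := h
      exact ⟨_, (XX hg hgeo hι).tri_swap hc0⟩))
    rwa [List.length_map] at this
  omega

/-- **the exceptional configuration is impossible** -/
theorem exc_config (hA : ∀ x ∈ A, ∀ y ∈ A, x * y = y * x) (M : Mods)
    (hSC : (XX hg hgeo hι).SC) (hS : StabStmt A B g)
    (hfix : FixStmt A B g) {F : Fr A B g} (hF : F.Ok hg hgeo hι)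
    (pC : IsPl F.C) (pC' : IsPl F.C') (pH : IsPl F.H) (rx : ¬ Rot F.x) (rx' : Rot F.x')
    (k0 : F.k hg hgeo hι = 0) (k1 : 1 ≤ F.k' hg hgeo hι)
    {p q : XV A B g} {γ s γ' s' a : List (XE A B g)}
    (hP : F.Poly hg hgeo hι p q γ s [] γ' s' a) (hM : F.Mini hg hgeo hι γ s [] γ' s' a)
    (ls : s.length = 1) (la : a.length = 1) {w : List (XE A B g)} {av : ℕ → XE A B g}
    {W : ℕ → List (XE A B g)} {I : List (List (XE A B g))}
    (hw : w = F.word hg hgeo hι γ s [] γ' s' a) (D : DW (XX hg hgeo hι) w av W I) : False := by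
  have hcl : (XX hg hgeo hι).Cl w := by rw [hw]; exact hP.cl
  have hP0 := hP
  obtain ⟨hp, hq, ⟨l1, ⟨y, oy, hγ, hs⟩, hr⟩, ⟨l2, ⟨y', oy', hγ', hs'⟩, hr'⟩, hb, ha⟩ := hP
  have e1 : γ = [] := List.eq_nil_of_length_eq_zero (by rw [l1, k0])
  have e2 : s' = [] := hr' rx'
  subst e1 e2
  have e3 : p = y := hγ
  subst e3
  have e4 : F.x • p = q := hb.nil_eq
  obtain ⟨e, rfl⟩ := List.length_eq_one_iff.1 ls
  obtain ⟨f, rfl⟩ := List.length_eq_one_iff.1 la
  have w1 : w = [] ++ [e] ++ (lobe hg hgeo hι F.x' γ' [] ++ [f]) := by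
    rw [hw]; simp [Fr.word, lobe]
  have w2 : w = [e] ++ lobe hg hgeo hι F.x' γ' [] ++ [f] := by
    rw [hw]; simp [Fr.word, lobe]
  have w3 : w = ([e] ++ lobe hg hgeo hι F.x' γ' []) ++ [f] ++ [] := by
    rw [hw]; simp [Fr.word, lobe]
  have llen : (lobe hg hgeo hι F.x' γ' []).length = 2 * F.k' hg hgeo hι := by
    unfold lobe
    simp only [List.length_append, List.length_map, rv_length, List.length_nil]
    omega
  have F1 : FlatMin hg hgeo hι F.C p (F.x • p) [] [e] (lobe hg hgeo hι F.x' γ' [] ++ [f]) := by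
    refine ⟨hs, fun t ht => ?_⟩
    have := hM p q [] t [] γ' [] [f] ⟨hp, hq, ⟨l1, ⟨p, oy, hγ, ht⟩, fun h => absurd h rx⟩,
      hP0.l2, hb, ha⟩
    unfold Fr.area at this
    have q1 : ∀ t : List (XE A B g), F.word hg hgeo hι [] t [] γ' [] [f] =
        [] ++ t ++ (lobe hg hgeo hι F.x' γ' [] ++ [f]) := by
      intro t; simp [Fr.word, lobe]
    rw [q1, q1] at this
    exact ⟨this.1, fun h => by have := this.2 h; simp at this ⊢; omega⟩
  have F3 : FlatMin hg hgeo hι F.H (F.x' • q) p ([e] ++ lobe hg hgeo hι F.x' γ' []) [f] [] := by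
    refine ⟨ha, fun t ht => ?_⟩
    have := hM p q [] [e] [] γ' [] t ⟨hp, hq, hP0.l1, hP0.l2, hb, ht⟩
    unfold Fr.area at this
    have q1 : ∀ t : List (XE A B g), F.word hg hgeo hι [] [e] [] γ' [] t =
        ([e] ++ lobe hg hgeo hι F.x' γ' []) ++ t ++ [] := by
      intro t; simp [Fr.word, lobe]
    rw [q1, q1] at this
    exact ⟨this.1, fun h => by have := this.2 h; simp at this ⊢; omega⟩
  have dk : F.k' hg hgeo hι ≤ dVC hg hgeo hι q F.C' := by
    have := dCC_le_dVC (hg := hg) (hgeo := hgeo) (hι := hι) (c' := F.C') hq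
    rw [dCC_comm] at this
    exact this
  have L2 : LobeMin hg hgeo hι F.C' F.x' q (F.k' hg hgeo hι) [e] γ' [] [f] := by
    refine ⟨hP0.l2, dk, hF.xC', hF.x1', ?_⟩
    intro γ2 s2 h2
    have := hM p q [] [e] [] γ2 s2 [f] ⟨hp, hq, hP0.l1, h2, hb, ha⟩
    unfold Fr.area at this
    have q1 : ∀ γ2 s2 : List (XE A B g), F.word hg hgeo hι [] [e] [] γ2 s2 [f] =
        [e] ++ lobe hg hgeo hι F.x' γ2 s2 ++ [f] := by
      intro γ2 s2; simp [Fr.word, lobe]
    rw [q1, q1] at this
    exact ⟨this.1, fun h => by have := this.2 h; simp at this ⊢⟩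
  obtain ⟨T1, -, -⟩ := flat_ hA M hSC _ _ _ _ _ _ w av W I w1 hcl D F1
  obtain ⟨T3, -, -⟩ := flat_ hA M hSC _ _ _ _ _ _ w av W I w3 hcl D F3
  have t1 := T1 0 (by simp) (by simp)
  have t3 := T3 (2 * F.k' hg hgeo hι + 1) (by simp [llen]) (by simp [llen])
  obtain ⟨γ0, f0, hγ0, hl0, -, -, -, hf0, -⟩ := L2.last k1
  have htip := H70L.tipL_ hA M hSC _ _ _ _ _ _ _ _ w av W I w2 hcl D L2 k1 rx' pC'
  have hpair := H70L.pairL_ hA M hSC _ _ _ _ _ _ _ _ w av W I w2 hcl D L2
  have a0 : av 0 = e := D.at (u := []) (v := lobe hg hgeo hι F.x' γ' [] ++ [f]) (by rw [w1]; simp)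
    rfl
  have aN : av (2 * F.k' hg hgeo hι + 1) = f :=
    D.at (u := [e] ++ lobe hg hgeo hι F.x' γ' []) (v := []) (by rw [w3]; simp) (by simp [llen])
  have hout : ∀ j (hj : j < γ'.length), av (1 + j) = γ'[j] := by
    intro j hj
    refine D.at (u := [e] ++ γ'.take j)
      (v := γ'.drop (j + 1) ++ (((XX hg hgeo hι).rv γ').map (actE F.x') ++ [f])) ?_ ?_
    · rw [← split_at, w2]
      unfold lobe
      simp only [List.append_assoc, List.nil_append]
    · simp only [List.length_append, List.length_take, List.length_cons, List.length_nil]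
      omega
  have hback : ∀ j (hj : j < γ'.length), av (1 + (2 * γ'.length - 1 - j)) =
      actE F.x' (xinv γ'[j]) := by
    intro j hj
    have hlr : (((XX hg hgeo hι).rv γ').map (actE F.x')).length = γ'.length := by
      rw [List.length_map, rv_length]
    have hj' : γ'.length - 1 - j < (((XX hg hgeo hι).rv γ').map (actE F.x')).length := by omega
    have h1 : av (1 + (2 * γ'.length - 1 - j)) =
        (((XX hg hgeo hι).rv γ').map (actE F.x'))[γ'.length - 1 - j] := by
      refine D.at (u := [e] ++ γ' ++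
        (((XX hg hgeo hι).rv γ').map (actE F.x')).take (γ'.length - 1 - j))
        (v := (((XX hg hgeo hι).rv γ').map (actE F.x')).drop (γ'.length - 1 - j + 1) ++ [f]) ?_ ?_
      · rw [← split_at, w2]
        unfold lobe
        simp only [List.append_assoc, List.nil_append]
      · simp only [List.length_append, List.length_take, List.length_cons, List.length_nil]
        omega
    rw [h1, List.getElem_map]
    congr 1
    unfold TG.rv
    rw [List.getElem_reverse, List.getElem_map]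
    have e5 : (γ'.map (XX hg hgeo hι).inv).length - 1 - (γ'.length - 1 - j) = j := by
      rw [List.length_map]; omega
    simp only [e5]
    rfl
  have hx1 : xsrc (av 1) = q := by
    have h0 : 0 < γ'.length := by omega
    have h1 := hout 0 h0
    rw [Nat.add_zero] at h1
    rw [h1]
    obtain ⟨g0, gt, hg0⟩ := List.exists_cons_of_length_pos h0
    have h2 := hγ'
    rw [hg0] at h2
    have h3 : γ'[0] = g0 := by simp [hg0]
    rw [h3]
    exact h2.1
  have hxe : xsrc e = p := hs.1.1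
  have hxf : xsrc f = F.x' • q := ha.1.1
  refine Exc.ExcD.false (hg := hg) (hgeo := hgeo) (hι := hι) (w := w) (a := av) (W := W) (I := I)
    (T := F.toT) (l := F.k' hg hgeo hι) hA hfix hS h2_ h2pair_ tip_ ?_ ?_
  · change Rot (F.x⁻¹ * F.x' * F.x)
    have h1 : F.x⁻¹ * F.x' * F.x = F.x⁻¹ * F.x' * F.x⁻¹⁻¹ := by rw [_root_.inv_inv]
    rw [h1, Rot_conj]
    exact rx'
  · refine ⟨bdA_of_DW D, ⟨t1.1, t1.2, t3.1, t3.2⟩, Fr.toT_rt hF pC pC' pH rx rx', k1, ?_, ?_,
      ?_, ?_, ?_, ?_, ?_, ?_, ?_, ?_⟩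
    · rw [w2]; simp [llen]
    · rw [a0]; exact hs.2 e (by simp)
    · rw [aN]; exact ha.2 f (by simp)
    · rw [hx1, a0, hxe]
      exact e4.symm
    · rw [a0, aN, hxe, hxf, ← e4]
      change p = (F.x' * F.x)⁻¹ • F.x' • F.x • p
      rw [smul_smul F.x' F.x, inv_smul_smul]
    · rw [Fr.toT_k]
      intro j j' h1 h2
      have h3 : j < γ'.length := by omega
      rw [hout j h3]
      have h4 := hback j h3
      rwa [show 2 * γ'.length - 1 - j = j' by omega] at h4
    · rw [Fr.toT_c2]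
      have h1 : av (F.k' hg hgeo hι) = f0 := by
        have h2 := hout (F.k' hg hgeo hι - 1) (by omega)
        rw [show 1 + (F.k' hg hgeo hι - 1) = F.k' hg hgeo hι by omega] at h2
        rw [h2]
        have h3 : F.k' hg hgeo hι - 1 = γ0.length := by omega
        simp only [hγ0, h3]
        simp
      rw [h1]
      exact hf0
    · intro j j' h1 h2 h3
      have h4 := pair3 w2 D L2 (j := j) (by omega) h2
      have h5 := hpair j (by omega) h2
      simp only [List.length_cons, List.length_nil, Nat.zero_add, Nat.add_zero] at h4 h5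
      have h6 : 1 + F.k' hg hgeo hι + (F.k' hg hgeo hι - j) = 1 + j' := by omega
      rw [h6] at h4 h5
      unfold vl at h5
      exact ⟨h4.1, h4.2, by omega⟩
    · obtain ⟨g0, g1, g2, g3, g4, g5⟩ := htip
      simp only [List.length_cons, List.length_nil, Nat.zero_add] at g4
      exact g4
    · intro n hn
      obtain ⟨g0, g1, g2, g3, g4, g5⟩ := htip
      simp only [List.length_cons, List.length_nil, Nat.zero_add] at g5
      obtain ⟨n', g6, g7, -⟩ := g5 (by rw [hn]; rfl)
      rw [Fr.toT_c2]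
      rw [hn] at g6
      simp only [List.cons.injEq] at g6
      rw [g6.2.1]
      exact g7

end Pool.Agent.ABA.B.H50
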