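import Pool.Agent.Helper88_ABB.CvcSet
import Pool.Agent.Helper50_ABB.ExcV

/-!
# Case V: TOUCH, EXC and case C in the set-up of `CV` (MP_d857f1_al, part B)
-/

set_option autoImplicit false

namespace Pool.Agent.ABA.B.H88C

open Knd Pool.Agent.ABA Pool.Agent.ABA.B Pool.Agent.ABA.B.TG Pool.Agent.ABA.B.H17
  Pool.Agent.ABA.B.H49 Pool.Agent.ABA.B.H50 Pool.Agent.ABA.B.H70L

variable {G : Type} [Group G] {A B : Subgroup G} {g : G}
variable {hg : ¬ IsABA A B g} {hgeo : Geo A B} {hι : Function.Injective (Pι A B g)}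

namespace CV

variable {F : Fr A B g} {p q : XV A B g} {γ s b γ' s' a : List (XE A B g)}
  {av : ℕ → XE A B g} {W : ℕ → List (XE A B g)} {I : List (List (XE A B g))}

/-- **case C** -/
theorem caseC (E : Env hg hgeo hι) (h : CV hg hgeo hι F p q γ s b γ' s' a av W I)
    (hk : F.k hg hgeo hι = 0) (hk' : F.k' hg hgeo hι = 0) : False :=
  H50.caseC E.hA E.M E.hSC E.hQ E.hS E.hfix h.ok h.po h.mi hk hk'

/-- **TOUCH**: a flat lobe between two flat sides -/
theorem touch (E : Env hg hgeo hι) (h : CV hg hgeo hι F p q γ s b γ' s' a av W I)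
    (hk : F.k hg hgeo hι = 0) (ha : a ≠ []) (hb : b ≠ []) :
    ∑ i ∈ Finset.Ico 0 s.length, vl W i + vl W s.length ≤ 3 ∧
    (IsPl F.C → ∑ i ∈ Finset.Ico 0 s.length, vl W i + vl W s.length ≤ 2) := by
  obtain ⟨w, hw⟩ : ∃ w, w = F.word hg hgeo hι γ s b γ' s' a := ⟨_, rfl⟩
  obtain ⟨hγ, hC, hS⟩ := h.k0 hk
  subst hγ
  have hs := h.s_ne E hk
  have D := h.D
  rw [← hw] at D
  have hcl := h.cl
  rw [← hw] at hcl
  have F1 := h.fms E hk
  have F2 := h.fmb
  have F4 := h.fma
  rw [lobe_nil] at F2 F4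
  have w1 : w = [] ++ s ++ (b ++ lobe hg hgeo hι F.x' γ' s' ++ a) := by
    rw [hw]; simp [Fr.word, lobe_nil]
  have w2 : w = s ++ b ++ (lobe hg hgeo hι F.x' γ' s' ++ a) := by
    rw [hw]; simp [Fr.word, lobe_nil]
  have w4 : w = (s ++ b ++ lobe hg hgeo hι F.x' γ' s') ++ a ++ [] := by
    rw [hw]; simp [Fr.word, lobe_nil]
  have Ls := List.length_pos_iff.2 hs
  have Lb := List.length_pos_iff.2 hb
  have La := List.length_pos_iff.2 ha
  have T2 := (flat_ E.hA E.M E.hSC _ _ _ _ _ _ w av W I w2 hcl D F2).1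
  have T4 := (flat_ E.hA E.M E.hSC _ _ _ _ _ _ w av W I w4 hcl D F4).1
  have c2 := at_corner D w2 F2.side
  have c4 := at_corner D w4 F4.side
  have hN : w.length = s.length + b.length + (lobe hg hgeo hι F.x' γ' s').length + a.length := by
    rw [w4]; simp; omega
  simp only [List.length_append] at T4 c4
  have dwk : ∀ i, 1 ≤ i → Wk (XX hg hgeo hι) (W i) (xinv (av (i - 1))) (av i) := by
    intro i hi
    obtain ⟨j, rfl⟩ : ∃ j, i = j + 1 := ⟨i - 1, by omega⟩
    rw [Nat.add_sub_cancel]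
    exact D.wk j
  have p0 : W w.length = W 0 := by
    have := D.bd.perW 0
    rwa [Nat.zero_add] at this
  have a0 : av w.length = av 0 := by
    have := D.bd.per 0
    rwa [Nat.zero_add] at this
  have wk0 : Wk (XX hg hgeo hι) (W 0) (xinv (av (w.length - 1))) (av 0) := by
    have := D.wk (w.length - 1)
    rw [show w.length - 1 + 1 = w.length by omega, p0, a0] at this
    exact this
  have tf0 : TFst (W 0) := by
    have := (T4 (w.length - 1) (by omega) (by omega)).2
    rwa [show w.length - 1 + 1 = w.length by omega, p0] at this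
  have hcls : (IsPl F.C ∧ IsPl F.H) ∨ NTwo hg hgeo hι F.C F.x := by
    rcases h.ok.kls with h1 | h1
    · exact Or.inl ⟨h1.1, h1.2.2.1⟩
    · exact Or.inr h1.2.2.2.2.1
  have U1 := H50.touch (H := F.H) E.hA E.M E.hSC h.ok.xC h.ok.dCH (α := av (w.length - 1))
    (β := av s.length)
    w1 hcl D F1 hs (by simpa using wk0) (by simpa using dwk s.length (by omega))
    (by simpa using tf0)
    (by simpa using (T2 s.length le_rfl (by omega)).1) (c4 _ (by omega) (by omega))
    (by rw [h.ok.xH]; exact c2 _ le_rfl (by omega)) hcls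
  simp only [List.length_nil, Nat.zero_add] at U1
  have hsum := sum_piece W 0 s.length (by omega)
  rw [Nat.zero_add] at hsum
  rw [hsum]
  exact ⟨by linarith [U1.1], fun h1 => by linarith [U1.2 h1]⟩

/-- **EXC**: the exceptional configuration is impossible -/
theorem exc (E : Env hg hgeo hι) (h : CV hg hgeo hι F p q γ s b γ' s' a av W I)
    (hk : F.k hg hgeo hι = 0) (hk' : 1 ≤ F.k' hg hgeo hι) (hb : b = []) (hs : s.length = 1)
    (ha : a.length = 1) (hr : Rot F.x') : False := by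
  have hcl : IsPl F.C ∧ IsPl F.C' ∧ IsPl F.H := by
    rcases h.ok.kls with h1 | h1
    · exact ⟨h1.1, h1.2.1, h1.2.2.1⟩
    · exact absurd hr h1.2.2.1
  subst hb
  exact H50.exc_config E.hA E.M E.hSC E.hS E.hfix h.ok hcl.1 hcl.2.1 hcl.2.2 (h.tr E hk) hr hk hk'
    h.po h.mi hs ha rfl h.D

end CV

end Pool.Agent.ABA.B.H88C
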