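import Pool.Agent.Helper50_ABB.CvPF
import Pool.Agent.Helper94_ABB.Q1
import Pool.Agent.Helper17_ABA.Lobe3

/-!
# TOUCH: two hub sides and a lobe without slit between them (MP_d857f1_al, part B, case V)
-/

set_option autoImplicit false

namespace Pool.Agent.ABA.B.H50

open Knd Pool.Agent.ABA Pool.Agent.ABA.B Pool.Agent.ABA.B.TG Pool.Agent.ABA.B.H17
  Pool.Agent.ABA.B.H89 Pool.Agent.ABA.B.H49 Pool.Agent.ABA.B.H94

variable {G : Type} [Group G] {A B : Subgroup G} {g : G}
variable {hg : ¬ IsABA A B g} {hgeo : Geo A B} {hι : Function.Injective (Pι A B g)}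

theorem TFst.rev {v : List (XE A B g)} (h : TFst v) : TLst v.reverse := by
  obtain ⟨e, f, w, rfl, h1⟩ := h
  exact ⟨w.reverse, f, e, by simp, h1⟩

theorem TLst.rev {v : List (XE A B g)} (h : TLst v) : TFst v.reverse := by
  obtain ⟨w, f, e, rfl, h1⟩ := h
  exact ⟨e, f, w.reverse, by simp, h1⟩

theorem isH_of_pl {e : XE A B g} {c : Car A B g} (h : car e = c) (hc : IsPl c) :
    (kndE e).isH = true := by
  obtain ⟨q, rfl⟩ := hc
  exact Exc.isH_of_plane h

/-- nodes of a walk start at the same vertex -/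
theorem wk_src {v : List (XE A B g)} {e f : XE A B g} (h : Wk (XX hg hgeo hι) v e f) :
    xsrc e = xsrc f := by
  obtain ⟨h1, h2, h3⟩ := h
  have he : e ∈ v := List.mem_of_mem_head? (by rw [h2]; rfl)
  have hf : f ∈ v := List.mem_of_getLast? h3
  exact (chain_src' h1 he rfl f hf).symm

/-- side of length one: the two walks have together at least four corners -/
theorem touch1 (hA : ∀ x ∈ A, ∀ y ∈ A, x * y = y * x) {c H : Car A B g} {z : PP A B g}
    (hz : z • c = c) (hcH : c ≠ H) (pc : IsPl c) (pH : IsPl H) {W1 W2 : List (XE A B g)}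
    {α β e : XE A B g} (w1 : Wk (XX hg hgeo hι) W1 (xinv α) e)
    (w2 : Wk (XX hg hgeo hι) W2 (xinv e) β) (t1 : TFst W1) (t2 : TLst W1) (t3 : TFst W2)
    (t4 : TLst W2) (ha : car α = H) (hb : car β = z • H) (he : car e = c)
    (hyz : xsrc (xinv e) = z • xsrc e) : 6 ≤ W1.length + W2.length := by
  have w3 := Exc.wk_rev (fun _ _ h => Exc.cor_sym h) (Slt.wk_map (k := z⁻¹) w2)
  have t5 := (TLst.act t4 z⁻¹).rev
  have t6 := (TFst.act t3 z⁻¹).rev
  have c1 : car (actE z⁻¹ β) = H := by rw [car_act, hb, inv_smul_smul]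
  have c2 : car (actE z⁻¹ (xinv e)) = c := by rw [car_act, car_inv, he, stab_inv hz]
  have c3 : car (xinv α) = H := by rw [car_inv, ha]
  have hk := knd_ G A B g hg hgeo hι _ _ _ (Exc.wk_rev (fun _ _ h => Exc.cor_sym h) w1)
    (isH_of_pl he pc) t2.rev
  have hk2 : kndE (actE z⁻¹ (xinv e)) = kinv (kndE e) := by rw [kndE_actE, kndE_xinv]
  have h1 := (h2pair_ G A B g hg hgeo hι hA W1 _ (xinv α) e (actE z⁻¹ β) (actE z⁻¹ (xinv e)) w1 w3
    t1 t2 t5 t6 (by
      rw [wk_src w1, xsrc_act, ← wk_src w2, hyz, inv_smul_smul]) (by rw [c3, c1]) (by rw [he, c2])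
    (by rw [c3, he]; exact hcH.symm) (isH_of_pl c3 pH) (isH_of_pl he pc)).1
  rw [List.length_reverse, List.length_map] at h1
  apply h1
  rw [hk2]
  rcases hk with hk | hk
  · exact Or.inl ⟨hk, by rw [← isO_kinv, ← hk]; cases kndE e <;> rfl⟩
  · exact Or.inr (Or.inl ⟨hk, by rw [isO_kinv]; exact hk⟩)

/-- **TOUCH** -/
theorem touch (hA : ∀ x ∈ A, ∀ y ∈ A, x * y = y * x) (M : Mods) (hSC : (XX hg hgeo hι).SC)
    {c H : Car A B g} {z : PP A B g} {y : XV A B g} (hz : z • c = c) (hcH : c ≠ H)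
    {l s r w : List (XE A B g)} {a : ℕ → XE A B g} {W : ℕ → List (XE A B g)}
    {I : List (List (XE A B g))} (hw : w = l ++ s ++ r) (hcl : (XX hg hgeo hι).Cl w)
    (hD : DW (XX hg hgeo hι) w a W I) (hFl : FlatMin hg hgeo hι c y (z • y) l s r) (hs : s ≠ [])
    {α β : XE A B g}
    (w1 : Wk (XX hg hgeo hι) (W l.length) (xinv α) (a l.length))
    (w2 : Wk (XX hg hgeo hι) (W (l.length + s.length)) (xinv (a (l.length + s.length - 1))) β)
    (t1 : TFst (W l.length)) (t2 : TLst (W (l.length + s.length)))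
    (ha : car α = H) (hb : car β = z • H)
    (hcls : (IsPl c ∧ IsPl H) ∨ NTwo hg hgeo hι c z) :
    vl W l.length + vl W (l.length + s.length) + vsum W l.length (l.length + s.length) ≤ 3 ∧
    (IsPl c →
      vl W l.length + vl W (l.length + s.length) + vsum W l.length (l.length + s.length) ≤ 2) := by
  obtain ⟨k1, k2, -⟩ := flat_ hA M hSC c y (z • y) l s r w a W I hw hcl hD hFl
  obtain ⟨i1, i2⟩ := intF_ hA M hSC c y (z • y) l s r w a W I hw hcl hD hFl hs
  have hl : 1 ≤ s.length := List.length_pos_iff.2 hs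
  have v1 := vl_le hD l.length
  have v2 := vl_le hD (l.length + s.length)
  rcases Nat.lt_or_ge 1 s.length with h2 | h2
  · refine ⟨by omega, fun hp => ?_⟩
    have := i1 hp
    omega
  · have hl1 : s.length = 1 := by omega
    obtain ⟨e, rfl⟩ := List.length_eq_one_iff.1 hl1
    have hcls' : IsPl c ∧ IsPl H := by
      rcases hcls with h | h
      · exact h
      · exact absurd (h _ _ hFl.side) (by simp)
    obtain ⟨⟨pe1, pe2⟩, hce⟩ := hFl.side
    have he : car e = c := hce e (by simp)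
    have ea : a l.length = e := hD.at (u := l) (v := r) (by rw [hw]; simp) rfl
    rw [List.length_singleton] at w2 t2 v2 i1 i2 k1 ⊢
    rw [Nat.add_sub_cancel, ea] at w2
    rw [ea] at w1
    have pe1' : xsrc e = y := pe1
    have pe2' : xsrc (xinv e) = z • y := pe2
    have h3 := touch1 hA hz hcH hcls'.1 hcls'.2 w1 w2 t1 (k1 l.length le_rfl (by omega)).1
      (k1 l.length le_rfl (by omega)).2 t2 ha hb he (by rw [pe1', pe2'])
    have h4 : vsum W l.length (l.length + 1) = 0 := by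
      unfold vsum
      simp
    rw [h4]
    unfold vl
    omega

end Pool.Agent.ABA.B.H50
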